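import Pool.Agent.Helper478_Shift.Fin
import Pool.Agent.Helper478_Pow.Mono

/-!
# Exponential sums over `F (n - s) ^ θ` in short intervals

For `n` in an interval of length `N ^ ρ` next to `N` and for frequencies `F` between `N ^ (20 / ρ)` and
`exp ((log N) ^ (1 + γ))` there is the saving of Vinogradov and Korobov.
-/

set_option autoImplicit false

namespace Pool.Agent.Helper478.Short

open Finset Filter
open Pool.Agent.H469R2.NK (e norm_e e_add e_zero conj_e)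
open Pool.Agent.Y957.VK (TT)
open Pool.Agent.Helper478.Surds (ev_pow cf cf_zero cf_le cf_ge)
open Pool.Agent.Helper478.Shift (alpR innerR)
open Pool.Agent.Helper478.Pow (TT_le' size_s exp_half four_le_exp)
open Pool.Agent.Helper478.Bases (cond)

lemma rpow_two_sided (θ : ℝ) (h1 : -1 ≤ θ) (h2 : θ < 1) (N a : ℝ) (hN : 0 < N) (h3 : N ≤ a)
    (h4 : a ≤ 2 * N) : N ^ θ / 2 ≤ a ^ θ ∧ a ^ θ ≤ 2 * N ^ θ := by
  have ha : 0 < a := by linarith
  have hNθ : 0 < N ^ θ := Real.rpow_pos_of_pos hN _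
  obtain ⟨t, ht⟩ : ∃ t : ℝ, t = a / N := ⟨_, rfl⟩
  have ht1 : 1 ≤ t := by rw [ht, le_div_iff₀ hN]; linarith
  have ht2 : t ≤ 2 := by rw [ht, div_le_iff₀ hN]; linarith
  have hat : a = N * t := by rw [ht]; field_simp
  have e1 : a ^ θ = N ^ θ * t ^ θ := by
    rw [hat, Real.mul_rpow hN.le (by linarith)]
  have e2 : t ^ θ ≤ 2 := by
    calc t ^ θ ≤ t ^ (1 : ℝ) := Real.rpow_le_rpow_of_exponent_le ht1 h2.le
      _ = t := Real.rpow_one _
      _ ≤ 2 := ht2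
  have e3 : 1 / 2 ≤ t ^ θ := by
    calc (1 : ℝ) / 2 ≤ t⁻¹ := by
          rw [one_div]
          exact inv_anti₀ (by linarith) ht2
      _ = t ^ (-1 : ℝ) := (Real.rpow_neg_one _).symm
      _ ≤ t ^ θ := Real.rpow_le_rpow_of_exponent_le ht1 h1
  rw [e1]
  constructor
  · nlinarith
  · nlinarith

lemma far' (β T Vr : ℝ) (m' : ℕ) (P : ℤ) (hm1 : 1 ≤ m') (hm2 : (m' : ℝ) ≤ Vr) (h4 : T ≤ |β|)
    (h5 : Vr * |β| ≤ 1 / 2) : T ≤ |(m' : ℝ) * β - P| := by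
  have hm1' : (1 : ℝ) ≤ m' := by exact_mod_cast hm1
  have hb := abs_nonneg β
  have h6 : |(m' : ℝ) * β| ≤ 1 / 2 := by
    rw [abs_mul, abs_of_nonneg (by linarith : (0 : ℝ) ≤ m')]
    exact (mul_le_mul_of_nonneg_right hm2 hb).trans h5
  have h7 : |β| ≤ |(m' : ℝ) * β| := by
    rw [abs_mul, abs_of_nonneg (by linarith : (0 : ℝ) ≤ m')]
    exact le_mul_of_one_le_left hb hm1'
  rcases eq_or_ne P 0 with hP | hP
  · rw [hP, Int.cast_zero, sub_zero]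
    exact h4.trans h7
  · have hP1 : (1 : ℝ) ≤ |(P : ℝ)| := by
      have := Int.one_le_abs hP
      exact_mod_cast this
    have h8 : |(P : ℝ)| ≤ |(m' : ℝ) * β - P| + |(m' : ℝ) * β| := by
      have := abs_sub_abs_le_abs_sub (P : ℝ) ((m' : ℝ) * β)
      rw [abs_sub_comm (P : ℝ)] at this
      linarith
    linarith

lemma vt_bound (V t j₀ : ℕ) (c y κ ρ cθ g : ℝ) (hV0 : (0 : ℝ) < V) (ht1 : (1 : ℝ) ≤ t) (hρ0 : 0 < ρ)
    (hc : c = ρ / 8) (hy0 : 0 < y) (hcθ0 : 0 < cθ) (hlogV : c * y - 1 ≤ Real.log V)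
    (hj1 : κ + 1 ≤ j₀) (hj2 : (j₀ : ℝ) ≤ κ + 2) (hκ20 : 20 ≤ κ) (hκρ : 20 ≤ κ * ρ) (hκ2 : κ ≤ g)
    (q3 : 100 * g ≤ y) (q5 : |Real.log (2 / cθ)| ≤ y) :
    (V : ℝ) / (t * (V ^ (2 * 1)) ^ j₀ : ℕ) ≤ cθ / 2 * (1 / 6 ^ j₀) * Real.exp (-(2 * y)) := by
  have e1 : (V : ℝ) / (t * (V ^ (2 * 1)) ^ j₀ : ℕ) ≤ V / (V : ℝ) ^ (2 * j₀) := by
    apply div_le_div_of_nonneg_left hV0.le (by positivity)
    push_cast
    rw [← pow_mul]
    exact le_mul_of_one_le_left (by positivity) ht1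
  refine e1.trans ?_
  have e2 : (V : ℝ) / (V : ℝ) ^ (2 * j₀) = Real.exp (-((2 * (j₀ : ℝ) - 1) * Real.log V)) := by
    have h4 : (V : ℝ) ^ (2 * j₀) = Real.exp ((2 * j₀ : ℕ) * Real.log V) := by
      rw [Real.exp_nat_mul, Real.exp_log hV0]
    nth_rewrite 1 [← Real.exp_log hV0]
    rw [h4, ← Real.exp_sub]
    congr 1
    push_cast
    ring
  have e3 : cθ / 2 * (1 / 6 ^ j₀) = Real.exp (-(Real.log (2 / cθ) + j₀ * Real.log 6)) := by
    rw [neg_add, Real.exp_add, Real.exp_neg, Real.exp_neg, Real.exp_log (by positivity),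
      Real.exp_nat_mul, Real.exp_log (by norm_num)]
    rw [inv_div, one_div]
  rw [e2, e3, ← Real.exp_add, Real.exp_le_exp]
  have h6 : Real.log 6 ≤ 2 := by
    rw [Real.log_le_iff_le_exp (by norm_num)]
    have h7 : Real.exp 2 = Real.exp 1 * Real.exp 1 := by rw [← Real.exp_add]; norm_num
    have h8 := Real.exp_one_gt_d9
    rw [h7]; nlinarith
  have hjr : (0 : ℝ) ≤ j₀ := Nat.cast_nonneg _
  have h7 : (2 * (j₀ : ℝ) - 1) * (c * y - 1) ≤ (2 * (j₀ : ℝ) - 1) * Real.log V := by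
    apply mul_le_mul_of_nonneg_left hlogV
    linarith
  have h8 : 5 ≤ (2 * (j₀ : ℝ) - 1) * c := by
    rw [hc]
    have h9 : (κ + 1) * ρ ≤ j₀ * ρ := mul_le_mul_of_nonneg_right hj1 hρ0.le
    linarith
  have h9 : 5 * y ≤ (2 * (j₀ : ℝ) - 1) * c * y := mul_le_mul_of_nonneg_right h8 hy0.le
  have h10 := le_abs_self (Real.log (2 / cθ))
  have h11 : (j₀ : ℝ) * Real.log 6 ≤ j₀ * 2 := mul_le_mul_of_nonneg_left h6 hjr
  have h12 : (2 * (j₀ : ℝ) - 1) * (c * y - 1) = (2 * (j₀ : ℝ) - 1) * c * y - (2 * (j₀ : ℝ) - 1) := by ring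
  rw [h12] at h7
  linarith

lemma rem_bound (M k : ℕ) (F θ a N y κ g : ℝ) (hF0 : 0 ≤ F * a ^ θ) (hN : N = Real.exp y) (ha : N ≤ a)
    (hFa1 : F * a ^ θ ≤ 2 * Real.exp (y * κ)) (hM2' : (M : ℝ) ^ 2 ≤ Real.exp (y / 2))
    (hk1 : 2 * κ + 6 ≤ k) (hk9 : (k : ℝ) + 1 ≤ 10 * g) (q3 : 100 * g ≤ y) (hy : 20 ≤ y) (hg : 1 ≤ g) :
    2 * Real.pi * (F * a ^ θ * (2 * (k + 1) * ((M : ℝ) ^ 2 / a) ^ (k + 1))) ≤ Real.exp (-y) := by
  have hapos : 0 < a := lt_of_lt_of_le (by rw [hN]; exact Real.exp_pos _) ha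
  have f2 : ((M : ℝ) ^ 2 / a) ^ (k + 1) ≤ Real.exp (-(y * (κ + 3))) := by
    have g1 : (M : ℝ) ^ 2 / a ≤ Real.exp (-(y / 2)) := by
      rw [div_le_iff₀ hapos]
      calc (M : ℝ) ^ 2 ≤ Real.exp (y / 2) := hM2'
        _ = Real.exp (-(y / 2)) * N := by rw [hN, ← Real.exp_add]; congr 1; ring
        _ ≤ Real.exp (-(y / 2)) * a := mul_le_mul_of_nonneg_left ha (Real.exp_pos _).le
    calc ((M : ℝ) ^ 2 / a) ^ (k + 1) ≤ (Real.exp (-(y / 2))) ^ (k + 1) :=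
          pow_le_pow_left₀ (by positivity) g1 _
      _ = Real.exp (-((k + 1 : ℕ) * (y / 2))) := by
          rw [← Real.exp_nat_mul]; congr 1; ring
      _ ≤ Real.exp (-(y * (κ + 3))) := by
          apply Real.exp_le_exp.2
          push_cast
          have : (κ + 3) * y ≤ ((k : ℝ) + 1) / 2 * y := mul_le_mul_of_nonneg_right (by linarith) (by linarith)
          linarith
  have hpi4 := Real.pi_le_four
  have hpow0 : 0 ≤ ((M : ℝ) ^ 2 / a) ^ (k + 1) := by positivity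
  have hk0 : (0 : ℝ) ≤ k := Nat.cast_nonneg k
  have step1 : 2 * ((k : ℝ) + 1) * ((M : ℝ) ^ 2 / a) ^ (k + 1) ≤
      2 * (10 * g) * Real.exp (-(y * (κ + 3))) :=
    mul_le_mul (by linarith) f2 hpow0 (by linarith)
  have step2 : F * a ^ θ * (2 * (k + 1) * ((M : ℝ) ^ 2 / a) ^ (k + 1)) ≤
      (2 * Real.exp (y * κ)) * (2 * (10 * g) * Real.exp (-(y * (κ + 3)))) :=
    mul_le_mul hFa1 step1 (by positivity) (by positivity)
  have step3 : 0 ≤ F * a ^ θ * (2 * (k + 1) * ((M : ℝ) ^ 2 / a) ^ (k + 1)) := by positivity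
  have step4 : 320 * g ≤ Real.exp y * Real.exp y := by
    have f3 : y ≤ Real.exp y := by have := Real.add_one_le_exp y; linarith
    have f4 : 320 * g ≤ 20 * y := by linarith
    have f5 : 20 * y ≤ y * y := mul_le_mul_of_nonneg_right hy (by linarith)
    have f6 : y * y ≤ Real.exp y * Real.exp y := mul_le_mul f3 f3 (by linarith) (Real.exp_pos _).le
    linarith
  calc 2 * Real.pi * (F * a ^ θ * (2 * (k + 1) * ((M : ℝ) ^ 2 / a) ^ (k + 1))) ≤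
        2 * 4 * ((2 * Real.exp (y * κ)) * (2 * (10 * g) * Real.exp (-(y * (κ + 3))))) :=
        mul_le_mul (by linarith) step2 step3 (by norm_num)
    _ = (320 * g) * Real.exp (-(3 * y)) := by
        have : Real.exp (-(3 * y)) = Real.exp (y * κ) * Real.exp (-(y * (κ + 3))) := by
          rw [← Real.exp_add]; congr 1; ring
        rw [this]; ring
    _ ≤ (Real.exp y * Real.exp y) * Real.exp (-(3 * y)) :=
        mul_le_mul_of_nonneg_right step4 (Real.exp_pos _).le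
    _ = Real.exp (-y) := by
        rw [← Real.exp_add, ← Real.exp_add]; congr 1; ring

theorem short_bd : ∃ γ : ℝ, 0 < γ ∧ γ ≤ 1 / 100 ∧ ∀ θ : ℝ, -1 ≤ θ → θ < 1 → θ ≠ 0 →
    ∀ ρ : ℝ, 0 < ρ → ρ ≤ 1 → ∃ N₀ : ℕ, ∀ (N R : ℕ) (F s : ℝ), N₀ ≤ N → (N : ℝ) ^ ρ ≤ R → R ≤ N →
      0 ≤ s → s < 1 → 0 < F → (N : ℝ) ^ (20 / ρ) ≤ F * (N : ℝ) ^ θ →
      F * (N : ℝ) ^ θ ≤ Real.exp ((Real.log N) ^ (1 + γ)) →
      ‖∑ n ∈ Ioc 0 R, e (F * ((N : ℝ) + n - s) ^ θ)‖ ≤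
        R * Real.exp (-(2 * (Real.log N) ^ (1 - 9 * γ))) := by
  obtain ⟨C, hC⟩ := TT_le'
  obtain ⟨γ, hγ⟩ : ∃ γ : ℝ, γ = 1 / (3 * (C : ℝ) + 100) := ⟨_, rfl⟩
  have hC0 : (0 : ℝ) ≤ C := Nat.cast_nonneg _
  have hγ0 : 0 < γ := by rw [hγ]; positivity
  have hγ1 : γ ≤ 1 / 100 := by
    rw [hγ]
    apply one_div_le_one_div_of_le (by norm_num)
    linarith
  have hγC : γ * (3 * (C : ℝ) + 9) < 1 := by
    rw [hγ, one_div, inv_mul_lt_iff₀ (by positivity)]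
    linarith
  refine ⟨γ, hγ0, hγ1, ?_⟩
  intro θ h1 h2 h3 ρ hρ0 hρ1
  have hθ0 : 0 < |θ| := abs_pos.2 h3
  obtain ⟨cθ, hcθ⟩ : ∃ cθ : ℝ, cθ = |θ| * (1 - θ) / 2 := ⟨_, rfl⟩
  have hcθ0 : 0 < cθ := by rw [hcθ]; have : 0 < 1 - θ := by linarith
                           positivity
  obtain ⟨c, hc⟩ : ∃ c : ℝ, c = ρ / 8 := ⟨_, rfl⟩
  have hc0 : 0 < c := by rw [hc]; positivity
  have hc1 : c ≤ 1 / 8 := by rw [hc]; linarith
  obtain ⟨B, hB⟩ : ∃ B : ℕ, B = 4 * C * (9 * 1) ^ C + 4374 * 1 ^ 2 := ⟨_, rfl⟩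
  have hB0 : (0 : ℝ) ≤ B := Nat.cast_nonneg _
  -- eventual inequalities
  have ev1 : ∀ᶠ y : ℝ in atTop, (4 / c * (B * 9 ^ (3 * C + 9))) * y ^ (γ * (3 * (C : ℝ) + 9)) ≤
      y ^ (1 : ℝ) := ev_pow _ _ _ hγC
  have ev2 : ∀ᶠ y : ℝ in atTop, (4 / c * (1944 * 9 ^ 8)) * y ^ (1 - γ) ≤ y ^ (1 : ℝ) :=
    ev_pow _ _ _ (by linarith)
  have ev3 : ∀ᶠ y : ℝ in atTop, 100 * y ^ γ ≤ y ^ (1 : ℝ) := ev_pow _ _ _ (by linarith)
  have ev4 : ∀ᶠ y : ℝ in atTop, (16 / ρ) * y ^ (1 - 9 * γ) ≤ y ^ (1 : ℝ) := ev_pow _ _ _ (by linarith)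
  have ev5 : ∀ᶠ y : ℝ in atTop, |Real.log (2 / cθ)| ≤ y := eventually_ge_atTop _
  have ev6 : ∀ᶠ y : ℝ in atTop, 16 / c ≤ y := eventually_ge_atTop _
  have hlog : Tendsto (fun N : ℕ => Real.log N) atTop atTop :=
    Real.tendsto_log_atTop.comp tendsto_natCast_atTop_atTop
  have hev := hlog.eventually (((ev1.and ev2).and (ev3.and ev4)).and ((ev5.and ev6).and
    (eventually_ge_atTop 20)))
  obtain ⟨N₀, hN₀⟩ := eventually_atTop.1 (hev.and (eventually_ge_atTop 2))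
  refine ⟨N₀, ?_⟩
  intro N R F s hN hRN hRN' hs0 hs1 hF hlo hhi
  obtain ⟨⟨⟨⟨q1, q2⟩, q3, q4⟩, ⟨q5, q6⟩, q7⟩, q8⟩ := hN₀ N hN
  obtain ⟨y, hy⟩ : ∃ y : ℝ, y = Real.log N := ⟨_, rfl⟩
  rw [← hy] at q1 q2 q3 q4 q5 q6 q7 hhi ⊢
  have hy0 : 0 < y := by linarith
  have hy1 : 1 ≤ y := by linarith
  have hN1' : 1 ≤ N := by omega
  have hN1 : (1 : ℝ) ≤ N := by exact_mod_cast hN1'
  have hN0 : (0 : ℝ) < N := by linarith
  have hpow : ∀ t : ℝ, (N : ℝ) ^ t = Real.exp (y * t) := by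
    intro t
    rw [Real.rpow_def_of_pos hN0, hy]
  have hNe : (N : ℝ) = Real.exp y := by rw [hy, Real.exp_log hN0]
  rw [Real.rpow_one] at q1 q2 q3 q4
  obtain ⟨Y, hY⟩ : ∃ Y : ℝ, Y = y ^ (1 - 9 * γ) := ⟨_, rfl⟩
  rw [← hY] at q4 ⊢
  have hY1 : 1 ≤ Y := by
    rw [hY]
    exact Real.one_le_rpow hy1 (by linarith)
  obtain ⟨g, hg⟩ : ∃ g : ℝ, g = y ^ γ := ⟨_, rfl⟩
  rw [← hg] at q3
  have hg1 : 1 ≤ g := by
    rw [hg]
    exact Real.one_le_rpow hy1 (by linarith)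
  have hNθ : 0 < (N : ℝ) ^ θ := Real.rpow_pos_of_pos hN0 _
  obtain ⟨κ, hκ⟩ : ∃ κ : ℝ, F * (N : ℝ) ^ θ = Real.exp (y * κ) := by
    refine ⟨Real.log (F * (N : ℝ) ^ θ) / y, ?_⟩
    rw [mul_div_cancel₀ _ hy0.ne', Real.exp_log (by positivity)]
  have hκ1 : 20 / ρ ≤ κ := by
    rw [hκ, hpow, Real.exp_le_exp] at hlo
    exact le_of_mul_le_mul_left hlo hy0
  have hκ2 : κ ≤ g := by
    rw [hκ, Real.exp_le_exp] at hhi
    have : y ^ (1 + γ) = y * g := by rw [hg, Real.rpow_add hy0, Real.rpow_one]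
    rw [this] at hhi
    exact le_of_mul_le_mul_left hhi hy0
  have hκ20 : 20 ≤ κ := by
    refine le_trans ?_ hκ1
    rw [le_div_iff₀ hρ0]; linarith
  have hκρ : 20 ≤ κ * ρ := by rwa [div_le_iff₀ hρ0] at hκ1
  -- the degree and the index
  obtain ⟨k, hk⟩ : ∃ k : ℕ, k = ⌈2 * κ⌉₊ + 6 := ⟨_, rfl⟩
  have hk1 : 2 * κ + 6 ≤ k := by
    rw [hk]; push_cast
    have := Nat.le_ceil (2 * κ); linarith
  have hk2 : (k : ℝ) ≤ 9 * g := by
    rw [hk]; push_cast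
    have := Nat.ceil_lt_add_one (a := 2 * κ) (by linarith); linarith
  have hk0 : (0 : ℝ) < k := by linarith
  have hk2' : 2 ≤ k := by omega
  obtain ⟨j₀, hj₀⟩ : ∃ j₀ : ℕ, j₀ = ⌈κ⌉₊ + 1 := ⟨_, rfl⟩
  have hj1 : κ + 1 ≤ j₀ := by
    rw [hj₀]; push_cast
    have := Nat.le_ceil κ; linarith
  have hj2 : (j₀ : ℝ) ≤ κ + 2 := by
    rw [hj₀]; push_cast
    have := Nat.ceil_lt_add_one (a := κ) (by linarith); linarith
  have hj3 : 1 ≤ j₀ := by omega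
  have hjk : j₀ ≤ k := by
    have : (j₀ : ℝ) ≤ k := by linarith
    exact_mod_cast this
  -- the lengths
  obtain ⟨V, hV⟩ : ∃ V : ℕ, V = ⌊Real.exp (c * y)⌋₊ := ⟨_, rfl⟩
  have hVle : (V : ℝ) ≤ Real.exp (c * y) := by
    rw [hV]; exact Nat.floor_le (Real.exp_pos _).le
  have hcy : 16 ≤ c * y := by
    have := mul_le_mul_of_nonneg_left q6 hc0.le
    have e1 : c * (16 / c) = 16 := by field_simp
    linarith
  have hcy1 : c * y ≤ 1 / 8 * y := mul_le_mul_of_nonneg_right hc1 hy0.le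
  have hcy2 : c * y + -y ≤ -2 := by linarith
  have hρy1 : ρ * y ≤ 1 * y := mul_le_mul_of_nonneg_right hρ1 hy0.le
  have hE4 : 4 ≤ Real.exp (c * y) := by
    have := Real.add_one_le_exp (c * y)
    linarith
  have hVge : Real.exp (c * y) / 2 ≤ V := by
    have := Nat.lt_floor_add_one (Real.exp (c * y))
    rw [← hV] at this
    linarith
  have hV2 : (2 : ℝ) ≤ V := by linarith
  have hV1 : 1 ≤ V := by
    have : (1 : ℝ) ≤ V := by linarith
    exact_mod_cast this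
  have hV0 : (0 : ℝ) < V := by linarith
  have hlogV : c * y - 1 ≤ Real.log V := by
    calc c * y - 1 ≤ c * y - Real.log 2 := by
          have := Real.log_two_lt_d9; linarith
      _ = Real.log (Real.exp (c * y) / 2) := by
          rw [Real.log_div (Real.exp_pos _).ne' (by norm_num), Real.log_exp]
      _ ≤ Real.log V := Real.log_le_log (by positivity) hVge
  have hlogV2 : c * y / 2 ≤ Real.log V := by linarith
  obtain ⟨m, hm⟩ : ∃ m, m = 4 * 1 * k ^ 2 * (k + 1) := ⟨_, rfl⟩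
  obtain ⟨t, ht⟩ : ∃ t, t = k ^ 2 + k * m := ⟨_, rfl⟩
  have ht1 : 1 ≤ t := by
    rw [ht]; have : 1 ≤ k ^ 2 := Nat.one_le_pow _ _ (by omega)
    omega
  have ht0 : (0 : ℝ) < t := by exact_mod_cast ht1
  have ht1' : (1 : ℝ) ≤ t := by exact_mod_cast ht1
  have hVt : (V : ℝ) / (t * (V ^ (2 * 1)) ^ j₀ : ℕ) ≤ cθ / 2 * (1 / 6 ^ j₀) * Real.exp (-(2 * y)) :=
    vt_bound V t j₀ c y κ ρ cθ g hV0 ht1' hρ0 hc hy0 hcθ0 hlogV hj1 hj2 hκ20 hκρ hκ2 q3 q5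
  have hcondV : 4 * C * ((k : ℝ) + m) ^ C + 2 * k * Real.log (15 * (t : ℝ) ^ 2) +
      8 * (t : ℝ) ^ 2 * (3 * Y) ≤ Real.log V := by
    have h1 := cond C 1 k k m t (by omega) hk2' le_rfl hm ht
    rw [← hB] at h1
    have h2 : (0 : ℝ) ≤ 8 * (t : ℝ) ^ 2 * ((k : ℝ) + 2) := by positivity
    have h3 : (B : ℝ) * (k : ℝ) ^ (3 * C + 9) ≤ c * y / 4 := by
      have h4 : (k : ℝ) ^ (3 * C + 9) ≤ 9 ^ (3 * C + 9) * y ^ (γ * (3 * (C : ℝ) + 9)) := by
        calc (k : ℝ) ^ (3 * C + 9) ≤ (9 * g) ^ (3 * C + 9) := pow_le_pow_left₀ (by linarith) hk2 _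
          _ = 9 ^ (3 * C + 9) * y ^ (γ * (3 * (C : ℝ) + 9)) := by
              rw [mul_pow, hg, ← Real.rpow_natCast (y ^ γ), ← Real.rpow_mul hy0.le]
              push_cast
              rfl
      have h5 := mul_le_mul_of_nonneg_left q1 hc0.le
      have h6 : c * (4 / c * (B * 9 ^ (3 * C + 9)) * y ^ (γ * (3 * (C : ℝ) + 9))) =
          4 * (B * (9 ^ (3 * C + 9) * y ^ (γ * (3 * (C : ℝ) + 9)))) := by
        field_simp
      have h7 : (B : ℝ) * (k : ℝ) ^ (3 * C + 9) ≤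
          B * (9 ^ (3 * C + 9) * y ^ (γ * (3 * (C : ℝ) + 9))) := by gcongr
      linarith
    have hs2 := size_s 1 k m t (9 * g) (by omega) (by omega) hm ht hk2
    have h4 : 8 * (t : ℝ) ^ 2 * (3 * Y) ≤ 1944 * 9 ^ 8 * y ^ (1 - γ) := by
      have h5 : (t : ℝ) ^ 2 ≤ 81 * 9 ^ 8 * g ^ 8 := by
        calc (t : ℝ) ^ 2 ≤ (9 * ((1 : ℕ) : ℝ) * (9 * g) ^ 4) ^ 2 := pow_le_pow_left₀ ht0.le hs2 2
          _ = 81 * 9 ^ 8 * g ^ 8 := by push_cast; ring
      have h6 : g ^ 8 * Y = y ^ (1 - γ) := by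
        rw [hg, hY, ← Real.rpow_natCast, ← Real.rpow_mul hy0.le, ← Real.rpow_add hy0]
        congr 1
        push_cast
        ring
      calc 8 * (t : ℝ) ^ 2 * (3 * Y) ≤ 8 * (81 * 9 ^ 8 * g ^ 8) * (3 * Y) := by gcongr
        _ = 1944 * 9 ^ 8 * (g ^ 8 * Y) := by ring
        _ = _ := by rw [h6]
    have h5 : 1944 * 9 ^ 8 * y ^ (1 - γ) ≤ c * y / 4 := by
      have h6 := mul_le_mul_of_nonneg_left q2 hc0.le
      have h7 : c * (4 / c * (1944 * 9 ^ 8) * y ^ (1 - γ)) =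
          4 * (1944 * 9 ^ 8 * y ^ (1 - γ)) := by field_simp
      linarith
    linarith
  obtain ⟨M, hM⟩ : ∃ M : ℕ, M = V ^ (2 * 1) := ⟨_, rfl⟩
  have hM1 : 1 ≤ M := by rw [hM]; exact Nat.one_le_pow _ _ (by omega)
  have hM0 : (0 : ℝ) < M := by exact_mod_cast hM1
  have hM2 : (M : ℝ) ^ 2 ≤ Real.exp (4 * (c * y)) := by
    rw [hM]
    push_cast
    rw [← pow_mul]
    calc (V : ℝ) ^ (2 * 1 * 2) ≤ (Real.exp (c * y)) ^ (2 * 1 * 2) := pow_le_pow_left₀ hV0.le hVle _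
      _ = Real.exp (4 * (c * y)) := by
          rw [← Real.exp_nat_mul]; norm_num
  have hM2' : (M : ℝ) ^ 2 ≤ Real.exp (y / 2) := by
    refine hM2.trans (Real.exp_le_exp.2 ?_)
    linarith
  have hM2N : (M : ℝ) ^ 2 ≤ N := by
    refine hM2'.trans ?_
    rw [hNe]
    exact Real.exp_le_exp.2 (by linarith)
  have hin : ∀ n ∈ Ioc 0 R, ‖∑ x ∈ Icc 1 M, ∑ z ∈ Icc 1 M,
      e (F * ((N : ℝ) + ((n + x * z : ℕ) : ℝ) - s) ^ θ)‖ ≤
      (M : ℝ) ^ 2 * (Real.exp (-(3 * Y)) + Real.exp (-y)) := by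
    intro n hn
    rw [mem_Ioc] at hn
    have hn1 : (1 : ℝ) ≤ n := by exact_mod_cast hn.1
    have hnR : (n : ℝ) ≤ N := by exact_mod_cast hn.2.trans hRN'
    obtain ⟨a, ha⟩ : ∃ a : ℝ, a = (N : ℝ) + n - s := ⟨_, rfl⟩
    have ha0 : (N : ℝ) ≤ a := by rw [ha]; linarith
    have ha2 : a ≤ 2 * N := by rw [ha]; linarith
    have hapos : 0 < a := by linarith
    obtain ⟨hθ1, hθ2⟩ := rpow_two_sided θ h1 h2 N a hN0 ha0 ha2
    have hFa1 : F * a ^ θ ≤ 2 * Real.exp (y * κ) := by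
      rw [← hκ]
      calc F * a ^ θ ≤ F * (2 * (N : ℝ) ^ θ) := by gcongr
        _ = _ := by ring
    have hFa2 : Real.exp (y * κ) / 2 ≤ F * a ^ θ := by
      rw [← hκ]
      calc F * (N : ℝ) ^ θ / 2 = F * ((N : ℝ) ^ θ / 2) := by ring
        _ ≤ F * a ^ θ := by gcongr
    have e1 : ∀ x z : ℕ, (N : ℝ) + ((n + x * z : ℕ) : ℝ) - s = a + (x : ℝ) * z := fun x z => by
      rw [ha]; push_cast; ring
    simp_rw [e1]
    refine (innerR F θ hF.le h1 h2 a M k (by linarith) (by linarith)).trans ?_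
    -- the coefficient
    have hajp : 0 < a ^ j₀ := by positivity
    have hβabs : |alpR F θ a j₀| = F * a ^ θ * |cf θ j₀| / a ^ j₀ := by
      unfold alpR
      rw [abs_div, abs_mul, abs_of_pos hajp, abs_of_pos (by
        have : 0 < a ^ θ := Real.rpow_pos_of_pos hapos _
        positivity)]
    have hFapos : 0 < F * a ^ θ := lt_of_lt_of_le (by positivity) hFa2
    have hNj : Real.exp (y * j₀) ≤ a ^ j₀ := by
      have : Real.exp (y * j₀) = (N : ℝ) ^ j₀ := by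
        rw [hNe, ← Real.exp_nat_mul, mul_comm]
      rw [this]
      exact pow_le_pow_left₀ hN0.le ha0 _
    have hNj2 : a ^ j₀ ≤ 2 ^ j₀ * Real.exp (y * j₀) := by
      have : Real.exp (y * j₀) = (N : ℝ) ^ j₀ := by
        rw [hNe, ← Real.exp_nat_mul, mul_comm]
      rw [this, ← mul_pow]
      exact pow_le_pow_left₀ hapos.le ha2 _
    have hup : |alpR F θ a j₀| ≤ 2 * Real.exp (-y) := by
      rw [hβabs, div_le_iff₀ hajp]
      calc F * a ^ θ * |cf θ j₀| ≤ 2 * Real.exp (y * κ) * 1 := by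
            apply mul_le_mul hFa1 (cf_le θ h1 h2 j₀) (abs_nonneg _) (by positivity)
        _ ≤ 2 * Real.exp (-y) * Real.exp (y * j₀) := by
            rw [mul_one, mul_assoc, ← Real.exp_add]
            apply mul_le_mul_of_nonneg_left _ (by norm_num)
            apply Real.exp_le_exp.2
            have := mul_le_mul_of_nonneg_left hj1 hy0.le
            linarith
        _ ≤ 2 * Real.exp (-y) * a ^ j₀ := by gcongr
    have hdown : cθ / 2 * (1 / 6 ^ j₀) * Real.exp (-(2 * y)) ≤ |alpR F θ a j₀| := by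
      rw [hβabs, le_div_iff₀ hajp]
      have h4 := cf_ge θ h1 h2 j₀ hj3
      rw [← hcθ] at h4
      have h5 : cθ / 3 ^ j₀ ≤ |cf θ j₀| := by
        rw [div_le_iff₀ (by positivity)]
        linarith
      calc cθ / 2 * (1 / 6 ^ j₀) * Real.exp (-(2 * y)) * a ^ j₀ ≤
            cθ / 2 * (1 / 6 ^ j₀) * Real.exp (-(2 * y)) * (2 ^ j₀ * Real.exp (y * j₀)) := by gcongr
        _ = (cθ / 3 ^ j₀) * (Real.exp (-(2 * y) + y * j₀) / 2) := by
            rw [Real.exp_add]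
            have h6 : (6 : ℝ) ^ j₀ = 2 ^ j₀ * 3 ^ j₀ := by rw [← mul_pow]; norm_num
            rw [h6]
            field_simp
        _ ≤ |cf θ j₀| * (Real.exp (y * κ) / 2) := by
            apply mul_le_mul h5 _ (by positivity) (abs_nonneg _)
            apply div_le_div_of_nonneg_right _ (by norm_num)
            apply Real.exp_le_exp.2
            have := mul_le_mul_of_nonneg_left hj2 hy0.le
            linarith
        _ ≤ |cf θ j₀| * (F * a ^ θ) := by gcongr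
        _ = F * a ^ θ * |cf θ j₀| := mul_comm _ _
    have hTT := hC 1 k V j₀ (3 * Y) (alpR F θ a) le_rfl hk2' hV1 (by rw [mem_Icc]; omega) m t hm ht (by
      intro m' hm1 hm2 P
      refine far' (alpR F θ a j₀) _ V m' P hm1 (by exact_mod_cast hm2) (hVt.trans hdown) ?_
      calc (V : ℝ) * |alpR F θ a j₀| ≤ Real.exp (c * y) * (2 * Real.exp (-y)) :=
            mul_le_mul hVle hup (abs_nonneg _) (Real.exp_pos _).le
        _ = 2 * Real.exp (c * y + -y) := by rw [Real.exp_add]; ring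
        _ ≤ 2 * (1 / 4) := by
            apply mul_le_mul_of_nonneg_left _ (by norm_num)
            calc Real.exp (c * y + -y) ≤ Real.exp (-2) := Real.exp_le_exp.2 hcy2
              _ ≤ 1 / 4 := by
                  rw [Real.exp_neg, ← one_div]
                  exact one_div_le_one_div_of_le (by norm_num) four_le_exp
        _ = 1 / 2 := by norm_num) hcondV
    rw [← hM] at hTT
    have hrem := rem_bound M k F θ a N y κ g hFapos.le hNe ha0 hFa1 hM2' hk1 (by linarith) q3 q7 hg1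
    calc ‖TT k M (alpR F θ a)‖ + (M : ℝ) ^ 2 * (2 * Real.pi * (F * a ^ θ *
          (2 * (k + 1) * ((M : ℝ) ^ 2 / a) ^ (k + 1)))) ≤
          (M : ℝ) ^ 2 * Real.exp (-(3 * Y)) + (M : ℝ) ^ 2 * Real.exp (-y) := by
          apply add_le_add hTT
          apply mul_le_mul_of_nonneg_left hrem (by positivity)
      _ = _ := by ring
  have hsh := Pool.Agent.Helper478.Bases.shift (fun n : ℕ => e (F * ((N : ℝ) + n - s) ^ θ))
    (fun n => (norm_e _).le) R M hM1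
  refine hsh.trans ?_
  have hsum := sum_le_sum hin
  rw [sum_const, Nat.card_Ioc, Nat.sub_zero, nsmul_eq_mul] at hsum
  have hR0 : (0 : ℝ) ≤ R := Nat.cast_nonneg R
  have hYρ : 16 * Y ≤ ρ * y := by
    have := mul_le_mul_of_nonneg_left q4 hρ0.le
    have e1 : ρ * (16 / ρ * Y) = 16 * Y := by field_simp
    linarith
  have hρy : 128 ≤ ρ * y := by
    rw [hc] at hcy; linarith
  have hMR : 2 * (M : ℝ) ^ 2 ≤ R * (Real.exp (-(2 * Y)) / 4) := by
    have h4 : Real.exp (ρ * y) ≤ R := by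
      rw [hpow, mul_comm] at hRN; exact hRN
    have h5 : 8 ≤ Real.exp 4 := by
      have h6 : Real.exp 4 = Real.exp 2 * Real.exp 2 := by rw [← Real.exp_add]; norm_num
      have h7 := four_le_exp
      rw [h6]; nlinarith
    calc 2 * (M : ℝ) ^ 2 = 8 * (M : ℝ) ^ 2 / 4 := by ring
      _ ≤ Real.exp 4 * Real.exp (4 * (c * y)) / 4 := by gcongr
      _ = Real.exp (4 + 4 * (c * y)) / 4 := by rw [← Real.exp_add]
      _ ≤ Real.exp (ρ * y + -(2 * Y)) / 4 := by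
          apply div_le_div_of_nonneg_right _ (by norm_num)
          apply Real.exp_le_exp.2
          rw [hc]
          linarith
      _ = Real.exp (ρ * y) * (Real.exp (-(2 * Y)) / 4) := by rw [Real.exp_add]; ring
      _ ≤ R * (Real.exp (-(2 * Y)) / 4) := by gcongr
  have h3Y : Real.exp (-(3 * Y)) ≤ Real.exp (-(2 * Y)) / 2 := by
    have h4 : Real.exp (-(3 * Y)) = Real.exp (-(2 * Y)) * Real.exp (-Y) := by
      rw [← Real.exp_add]; congr 1; ring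
    have h5 := exp_half (-Y) (by linarith)
    rw [h4]
    have h6 := mul_le_mul_of_nonneg_left h5 (Real.exp_pos (-(2 * Y))).le
    linarith
  have hyY : Real.exp (-y) ≤ Real.exp (-(2 * Y)) / 4 := by
    have h4 : Real.exp (-y) ≤ Real.exp (-(2 * Y)) * Real.exp (-2) := by
      rw [← Real.exp_add]
      apply Real.exp_le_exp.2
      linarith
    have h5 : Real.exp (-2 : ℝ) ≤ 1 / 4 := by
      rw [Real.exp_neg, ← one_div]
      exact one_div_le_one_div_of_le (by norm_num) four_le_exp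
    have h6 := mul_le_mul_of_nonneg_left h5 (Real.exp_pos (-(2 * Y))).le
    linarith
  calc 1 / (M : ℝ) ^ 2 * ∑ n ∈ Ioc 0 R, ‖∑ x ∈ Icc 1 M, ∑ z ∈ Icc 1 M,
        e (F * ((N : ℝ) + ((n + x * z : ℕ) : ℝ) - s) ^ θ)‖ + 2 * (M : ℝ) ^ 2 ≤
        1 / (M : ℝ) ^ 2 * (R * ((M : ℝ) ^ 2 * (Real.exp (-(3 * Y)) + Real.exp (-y)))) +
        2 * (M : ℝ) ^ 2 := by
        apply add_le_add _ le_rfl
        exact mul_le_mul_of_nonneg_left hsum (by positivity)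
    _ = R * (Real.exp (-(3 * Y)) + Real.exp (-y)) + 2 * (M : ℝ) ^ 2 := by field_simp
    _ ≤ R * (Real.exp (-(2 * Y)) / 2 + Real.exp (-(2 * Y)) / 4) + R * (Real.exp (-(2 * Y)) / 4) := by
        gcongr
    _ = R * Real.exp (-(2 * Y)) := by ring

end Pool.Agent.Helper478.Short
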