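import Pool.Agent.Helper478_Short.Abs
import Pool.Agent.Helper478_Short.Bd

/-!
# The digits of `c + x (N + n - s) ^ θ` for almost all `n` in short intervals
-/

set_option autoImplicit false

namespace Pool.Agent.Helper478.Short

open Finset Filter
open Pool.Agent.H469R2.NK (e norm_e e_add e_zero conj_e)
open Pool.Agent.Helper478.Bases (Equi equi_of)
open Pool.Agent.Helper478.Surds (ev_pow EquiW equiW_of_equi norm_sum_abs FreqBd)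

/-- **Main theorem** -/
theorem short_digits : ∃ γ : ℝ, 0 < γ ∧ γ ≤ 1 / 200 ∧ ∀ θ : ℝ, -1 ≤ θ → θ < 1 → θ ≠ 0 →
    ∀ ρ : ℝ, 0 < ρ → ρ ≤ 1 → ∀ ε : ℝ, 0 < ε → ∃ N₀ : ℕ, ∀ (N R : ℕ) (c x s : ℝ), N₀ ≤ N →
      (N : ℝ) ^ ρ ≤ R → R ≤ N → 0 ≤ s → s < 1 → x ≠ 0 → |x| * (N : ℝ) ^ θ ≤ N →
      (({n : ℕ | 1 ≤ n ∧ n ≤ R ∧ ∃ b u v : ℕ, 2 ≤ b ∧ (Real.log N) ^ (1 - γ) ≤ (v : ℝ) - u ∧
        v * Real.log b ≤ (Real.log N) ^ (1 + γ) ∧
        (N : ℝ) ^ (20 / ρ) ≤ (b : ℝ) ^ u * (|x| * (N : ℝ) ^ θ) ∧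
        ¬ EquiW (c + x * ((N : ℝ) + n - s) ^ θ) b u v ε}.ncard : ℕ) : ℝ) ≤
          R * Real.exp (-√(Real.log N)) := by
  classical
  obtain ⟨γ₀, hγ0, hγ1, hbd⟩ := short_bd
  refine ⟨γ₀ / 2, by positivity, by linarith, ?_⟩
  intro θ h1 h2 h3 ρ hρ0 hρ1 ε' hε'
  -- parameters
  obtain ⟨ε, hε⟩ : ∃ ε : ℝ, ε = min ε' 1 := ⟨_, rfl⟩
  have hε0 : 0 < ε := by rw [hε]; exact lt_min hε' one_pos
  have hε1 : ε ≤ 1 := by rw [hε]; exact min_le_right _ _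
  have hεε' : ε ≤ ε' := by rw [hε]; exact min_le_left _ _
  obtain ⟨K, hK1, hK64⟩ : ∃ K : ℕ, 1 ≤ K ∧ 64 ≤ ε ^ 2 * K := by
    refine ⟨⌈64 / ε ^ 2⌉₊ + 1, by omega, ?_⟩
    have h1 := Nat.le_ceil (64 / ε ^ 2)
    rw [div_le_iff₀ (by positivity)] at h1
    push_cast
    have h2 : 0 < ε ^ 2 := by positivity
    nlinarith
  have hK0 : (1 : ℝ) ≤ K := by exact_mod_cast hK1
  obtain ⟨η, hη⟩ : ∃ η : ℝ, η = ε / (16 * K) := ⟨_, rfl⟩
  have hη0 : 0 < η := by rw [hη]; positivity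
  have hηK : 2 * η * K ≤ ε / 8 := by
    rw [hη]
    apply le_of_eq
    field_simp
    norm_num
  obtain ⟨N₁, hN₁⟩ := hbd θ h1 h2 h3 ρ hρ0 hρ1
  obtain ⟨y₀, hy₀⟩ := weyl_abs γ₀ hγ0 hγ1 K (2 * η) (by positivity)
  -- eventual inequalities
  have ev1 : ∀ᶠ y : ℝ in atTop, Real.log (2 * K) * y ^ (0 : ℝ) ≤ y ^ (1 : ℝ) := ev_pow _ _ _ (by norm_num)
  have ev2 : ∀ᶠ y : ℝ in atTop, 3 * y ^ (1 + γ₀ / 2) ≤ y ^ (1 + γ₀) := ev_pow _ _ _ (by linarith)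
  have ev3 : ∀ᶠ y : ℝ in atTop, 1 * y ^ (1 : ℝ) ≤ y ^ (1 + γ₀ / 2) := ev_pow _ _ _ (by linarith)
  have ev4 : ∀ᶠ y : ℝ in atTop, y₀ ≤ y := eventually_ge_atTop _
  have hlog : Tendsto (fun N : ℕ => Real.log N) atTop atTop :=
    Real.tendsto_log_atTop.comp tendsto_natCast_atTop_atTop
  have hev := hlog.eventually ((ev1.and ev2).and ((ev3.and ev4).and (eventually_ge_atTop 10)))
  obtain ⟨N₀, hN₀⟩ := eventually_atTop.1 (hev.and (eventually_ge_atTop (max N₁ 2)))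
  refine ⟨N₀, ?_⟩
  intro N R c x s hN hNR hRN hs0 hs1 hx hxN
  have hx0 : 0 < |x| := abs_pos.2 hx
  obtain ⟨⟨⟨q1, q2⟩, ⟨q3, q4⟩, q8⟩, q9⟩ := hN₀ N hN
  obtain ⟨y, hy⟩ : ∃ y : ℝ, y = Real.log N := ⟨_, rfl⟩
  rw [← hy] at q1 q2 q3 q4 q8 ⊢
  have hy0 : 0 < y := by linarith
  have hy1 : 1 ≤ y := by linarith
  have hN2 : 2 ≤ N := (le_max_right _ _).trans q9
  have hNN₁ : N₁ ≤ N := (le_max_left _ _).trans q9
  have hN0 : (0 : ℝ) < N := by exact_mod_cast (by omega : 0 < N)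
  have hN1 : (1 : ℝ) ≤ N := by exact_mod_cast (by omega : 1 ≤ N)
  have hNexp : (N : ℝ) = Real.exp y := by rw [hy, Real.exp_log hN0]
  have hNθ : 0 < (N : ℝ) ^ θ := Real.rpow_pos_of_pos hN0 _
  rw [Real.rpow_zero, mul_one, Real.rpow_one] at q1
  rw [Real.rpow_one, one_mul] at q3
  let ν : ℕ → ℝ := fun n => c + x * ((N : ℝ) + n - s) ^ θ
  have hfreq : ∀ h ∈ Icc 1 K, ∀ b u k : ℕ, 2 ≤ b →
      (N : ℝ) ^ (20 / ρ) ≤ (b : ℝ) ^ u * (|x| * (N : ℝ) ^ θ) →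
      ((u + k : ℕ) : ℝ) * Real.log b ≤ y ^ (1 + γ₀ / 2) →
      FreqBd (Ioc 0 R) (fun n => (h : ℝ) * ν n) 1 b u k (R * Real.exp (-(2 * y ^ (1 - 9 * γ₀)))) := by
    intro h hh b u k hb hδb hub Z hZ1 hZ2
    rw [mem_Icc] at hh
    have hb0 : (0 : ℝ) < b := by exact_mod_cast (by omega : 0 < b)
    have hb2 : (2 : ℝ) ≤ b := by exact_mod_cast hb
    have hh0 : (1 : ℝ) ≤ h := by exact_mod_cast hh.1
    have hhK' : (h : ℝ) ≤ K := by exact_mod_cast hh.2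
    have hbu : (0 : ℝ) < (b : ℝ) ^ u := by positivity
    have hZpos : 0 < |(Z : ℝ)| := lt_of_lt_of_le (by positivity) hZ1
    have hF : |(h : ℝ) * Z * x| = h * |x| * |(Z : ℝ)| := by
      rw [abs_mul, abs_mul, abs_of_pos (by linarith : (0 : ℝ) < h)]
      ring
    have hred : ‖∑ n ∈ Ioc 0 R, e (1 * Z * (h * ν n))‖ =
        ‖∑ n ∈ Ioc 0 R, e (|(h : ℝ) * Z * x| * ((N : ℝ) + n - s) ^ θ)‖ := by
      rw [← norm_sum_abs (Ioc 0 R) (fun n : ℕ => ((N : ℝ) + n - s) ^ θ)]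
      have e1 : ∑ n ∈ Ioc 0 R, e (1 * Z * (h * ν n)) =
          e ((h : ℝ) * Z * c) * ∑ n ∈ Ioc 0 R, e ((h : ℝ) * Z * x * ((N : ℝ) + n - s) ^ θ) := by
        rw [mul_sum]
        refine sum_congr rfl fun n _ => ?_
        rw [← e_add]
        congr 1
        simp only [ν]
        ring
      rw [e1, norm_mul, norm_e, one_mul]
    rw [hred, hy]
    refine hN₁ N R |(h : ℝ) * Z * x| s hNN₁ hNR hRN hs0 hs1 (by rw [hF]; positivity) ?_ ?_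
    · rw [hF]
      have f1 : (b : ℝ) ^ u ≤ |(Z : ℝ)| := by
        refine le_trans ?_ hZ1
        rw [pow_succ]
        nlinarith
      calc (N : ℝ) ^ (20 / ρ) ≤ (b : ℝ) ^ u * (|x| * (N : ℝ) ^ θ) := hδb
        _ = 1 * |x| * ((b : ℝ) ^ u) * (N : ℝ) ^ θ := by ring
        _ ≤ h * |x| * |(Z : ℝ)| * (N : ℝ) ^ θ := by gcongr
    · rw [hF, ← hy]
      have f1 : (b : ℝ) ^ (u + k) ≤ Real.exp (y ^ (1 + γ₀ / 2)) := by
        have g1 : (b : ℝ) ^ (u + k) = Real.exp (((u + k : ℕ) : ℝ) * Real.log b) := by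
          rw [Real.exp_nat_mul, Real.exp_log hb0]
        rw [g1]
        exact Real.exp_le_exp.2 hub
      have f2 : |x| * (N : ℝ) ^ θ ≤ Real.exp y := hxN.trans (by rw [← hNexp])
      have f3 : 2 * (K : ℝ) = Real.exp (Real.log (2 * K)) := (Real.exp_log (by positivity)).symm
      calc (h : ℝ) * |x| * |(Z : ℝ)| * (N : ℝ) ^ θ = h * |(Z : ℝ)| * (|x| * (N : ℝ) ^ θ) := by ring
        _ ≤ K * (2 * Real.exp (y ^ (1 + γ₀ / 2))) * Real.exp y := by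
              have := hZ2.trans (mul_le_mul_of_nonneg_left f1 (by norm_num))
              gcongr
        _ = (2 * K) * Real.exp (y ^ (1 + γ₀ / 2)) * Real.exp y := by ring
        _ = Real.exp (Real.log (2 * K) + y ^ (1 + γ₀ / 2) + y) := by
            rw [f3, ← Real.exp_add, ← Real.exp_add, ← f3]
        _ ≤ Real.exp (y ^ (1 + γ₀)) := Real.exp_le_exp.2 (by linarith)
  have key := hy₀ y R ℕ (Icc 1 K) (fun h n => (h : ℝ) * ν n)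
    (fun b u => (N : ℝ) ^ (20 / ρ) ≤ (b : ℝ) ^ u * (|x| * (N : ℝ) ^ θ)) q4 (by rw [Nat.card_Icc]; omega)
    (by
      intro b u u' huu' hbu
      rcases Nat.eq_zero_or_pos b with rfl | hb
      · rcases Nat.eq_zero_or_pos u with rfl | hu
        · rcases Nat.eq_zero_or_pos u' with rfl | hu'
          · exact hbu
          · exfalso
            -- `N ^ (20 / ρ) ≤ |x| N ^ θ ≤ N`
            simp only [Nat.cast_zero, pow_zero, one_mul] at hbu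
            have h5 : (N : ℝ) ^ (1 : ℝ) < (N : ℝ) ^ (20 / ρ) := by
              apply Real.rpow_lt_rpow_of_exponent_lt (by exact_mod_cast (by omega : 1 < N))
              rw [lt_div_iff₀ hρ0]; linarith
            rw [Real.rpow_one] at h5
            linarith
        · exfalso
          simp only [Nat.cast_zero] at hbu
          rw [zero_pow (by omega), zero_mul] at hbu
          have : 0 < (N : ℝ) ^ (20 / ρ) := Real.rpow_pos_of_pos hN0 _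
          linarith
      · refine hbu.trans ?_
        apply mul_le_mul_of_nonneg_right _ (by positivity)
        exact pow_le_pow_right₀ (by exact_mod_cast hb) huu')
    hfreq
  refine le_trans ?_ key
  have hfin : {n : ℕ | 1 ≤ n ∧ n ≤ R ∧ ∃ b u v : ℕ, 2 ≤ b ∧ y ^ (1 - γ₀ / 2) ≤ (v : ℝ) - u ∧
        v * Real.log b ≤ y ^ (1 + γ₀ / 2) ∧ (N : ℝ) ^ (20 / ρ) ≤ (b : ℝ) ^ u * (|x| * (N : ℝ) ^ θ) ∧
        ∃ h ∈ Icc 1 K, 2 * η * ((v : ℝ) - u) <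
          ‖∑ i ∈ Icc 1 (v - u), e ((b : ℝ) ^ (u + i) * ((h : ℝ) * ν n))‖}.Finite :=
    (Set.finite_Iic R).subset fun n hn => hn.2.1
  have hsub : {n : ℕ | 1 ≤ n ∧ n ≤ R ∧ ∃ b u v : ℕ, 2 ≤ b ∧ y ^ (1 - γ₀ / 2) ≤ (v : ℝ) - u ∧
        v * Real.log b ≤ y ^ (1 + γ₀ / 2) ∧ (N : ℝ) ^ (20 / ρ) ≤ (b : ℝ) ^ u * (|x| * (N : ℝ) ^ θ) ∧
        ¬ EquiW (c + x * ((N : ℝ) + n - s) ^ θ) b u v ε'} ⊆
      {n : ℕ | 1 ≤ n ∧ n ≤ R ∧ ∃ b u v : ℕ, 2 ≤ b ∧ y ^ (1 - γ₀ / 2) ≤ (v : ℝ) - u ∧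
        v * Real.log b ≤ y ^ (1 + γ₀ / 2) ∧ (N : ℝ) ^ (20 / ρ) ≤ (b : ℝ) ^ u * (|x| * (N : ℝ) ^ θ) ∧
        ∃ h ∈ Icc 1 K, 2 * η * ((v : ℝ) - u) <
          ‖∑ i ∈ Icc 1 (v - u), e ((b : ℝ) ^ (u + i) * ((h : ℝ) * ν n))‖} := by
    rintro n ⟨a1, a2, b, u, v, hb, a3, a4, a5, a6⟩
    refine ⟨a1, a2, b, u, v, hb, a3, a4, a5, ?_⟩
    by_contra hcon
    push Not at hcon
    apply a6
    have huv : (u : ℝ) < v := by
      have : 0 < y ^ (1 - γ₀ / 2) := Real.rpow_pos_of_pos hy0 _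
      linarith
    have huv' : u < v := by exact_mod_cast huv
    have hvu : ((v - u : ℕ) : ℝ) = v - u := by rw [Nat.cast_sub huv'.le]
    have hνn : ν n = c + x * ((N : ℝ) + n - s) ^ θ := rfl
    rw [← hνn]
    refine equiW_of_equi _ b u v ε' huv'.le ?_
    refine (equi_of b (v - u) K (ν n * (b : ℝ) ^ u) ε η hK1 hε0 hε1 hη0.le hK64 hηK ?_).mono hεε'
    intro h hh
    have := hcon h hh
    rw [← hvu] at this
    refine le_trans (le_of_eq ?_) this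
    congr 1
    refine sum_congr rfl fun i _ => ?_
    rw [pow_add]
    congr 1
    ring
  exact_mod_cast Set.ncard_le_ncard hsub hfin

end Pool.Agent.Helper478.Short
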