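import Pool.Agent.Helper478_Short.Ser2

/-!
# Taylor coefficients of `t ^ θ g (1 / t)` for large `t`, III
-/

set_option autoImplicit false

namespace Pool.Agent.Helper478.Short

open Finset Filter Topology
open Pool.Agent.Helper478.Surds (cf cf_zero cf_succ)

lemma rpow_near (μ N a : ℝ) (hN : 0 < N) (h1 : N ≤ a) (h2 : a ≤ 2 * N) :
    a ^ μ ≤ 2 ^ |μ| * N ^ μ ∧ N ^ μ ≤ 2 ^ |μ| * a ^ μ := by
  have ha : 0 < a := by linarith
  have hNμ : 0 < N ^ μ := Real.rpow_pos_of_pos hN _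
  have haμ : 0 < a ^ μ := Real.rpow_pos_of_pos ha _
  have h2a : (1 : ℝ) ≤ 2 ^ |μ| := Real.one_le_rpow (by norm_num) (abs_nonneg _)
  rcases le_total 0 μ with hμ | hμ
  · rw [abs_of_nonneg hμ, ← Real.mul_rpow (by norm_num) hN.le, ← Real.mul_rpow (by norm_num) ha.le]
    exact ⟨Real.rpow_le_rpow ha.le h2 hμ, Real.rpow_le_rpow hN.le (by linarith) hμ⟩
  · constructor
    · have h3 : a ^ μ ≤ N ^ μ := Real.rpow_le_rpow_of_nonpos hN h1 hμ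
      nlinarith
    · rw [abs_of_nonpos hμ]
      have h3 : (2 * N) ^ μ ≤ a ^ μ := Real.rpow_le_rpow_of_nonpos ha h2 hμ
      rw [Real.mul_rpow (by norm_num) hN.le] at h3
      have h4 : (2 : ℝ) ^ (-μ) * 2 ^ μ = 1 := by
        rw [← Real.rpow_add (by norm_num)]; simp
      have h5 : (0 : ℝ) < 2 ^ (-μ) := Real.rpow_pos_of_pos (by norm_num) _
      calc N ^ μ = 2 ^ (-μ) * 2 ^ μ * N ^ μ := by rw [h4, one_mul]
        _ = 2 ^ (-μ) * (2 ^ μ * N ^ μ) := by ring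
        _ ≤ 2 ^ (-μ) * a ^ μ := by gcongr

lemma const_pow (q C D : ℝ) (hq : 0 ≤ q) (hC : 0 ≤ C) (hD : q * (1 + C) ≤ D) (j : ℕ) (hj : 1 ≤ j) :
    C * q ^ j ≤ D ^ j := by
  have h1 : (1 : ℝ) ≤ 1 + C := by linarith
  calc C * q ^ j ≤ (1 + C) ^ j * q ^ j := by
        apply mul_le_mul_of_nonneg_right _ (pow_nonneg hq j)
        calc C ≤ 1 + C := by linarith
          _ = (1 + C) ^ 1 := (pow_one _).symm
          _ ≤ (1 + C) ^ j := pow_le_pow_right₀ h1 hj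
    _ = (q * (1 + C)) ^ j := by rw [mul_pow]; ring
    _ ≤ D ^ j := pow_le_pow_left₀ (by positivity) hD j

theorem germ_taylor (θ s : ℝ) (hs0 : 0 < s) (hs1 : s ≤ 1) (b : ℕ → ℝ) (A : ℝ) (hA : 1 ≤ A)
    (hb : ∀ m, |b m| ≤ A ^ (m + 1)) (m₀ : ℕ) (hm₀ : b m₀ ≠ 0) (hθ : ∀ i : ℕ, θ - s * m₀ ≠ i)
    (hlow : ∀ m < m₀, b m = 0 ∨ ∃ i : ℕ, θ - s * m = i) :
    ∃ D : ℝ, 1 ≤ D ∧ ∃ J₀ : ℕ, ∀ N a : ℝ, D ≤ N → N ≤ a → a ≤ 2 * N → ∃ β : ℕ → ℝ,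
      (∀ h : ℝ, 0 ≤ h → 4 * h ≤ a → ∀ k : ℕ, J₀ ≤ k →
        |germ θ s b (a + h) - ∑ j ∈ range (k + 1), β j * h ^ j| ≤
          D * (2 * h / a) ^ (k + 1) * N ^ (θ - s * m₀)) ∧
      (∀ j : ℕ, J₀ ≤ j → |β j| ≤ D ^ j * N ^ (θ - s * m₀ - j)) ∧
      (∀ j : ℕ, J₀ ≤ j → D ^ j ≤ N → N ^ (θ - s * m₀ - j) ≤ D ^ j * |β j|) := by
  obtain ⟨T, hT⟩ := exists_nat_ge |θ|
  obtain ⟨d, hd0, hd1, hd⟩ := cf_ge_pow (θ - s * m₀) hθ
  obtain ⟨μ, hμ⟩ : ∃ μ : ℝ, μ = θ - s * m₀ := ⟨_, rfl⟩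
  have hbm : 0 < |b m₀| := abs_pos.2 hm₀
  have h2μ : (0 : ℝ) < 2 ^ |μ| := Real.rpow_pos_of_pos (by norm_num) _
  obtain ⟨C₁, hC₁⟩ : ∃ C : ℝ, C = 4 * A * 2 ^ T * (2 * A) ^ m₀ * 2 ^ |μ| := ⟨_, rfl⟩
  obtain ⟨C₂, hC₂⟩ : ∃ C : ℝ, C = 4 * A * 2 ^ T * (2 * A) ^ (m₀ + 1) / |b m₀| := ⟨_, rfl⟩
  obtain ⟨C₃, hC₃⟩ : ∃ C : ℝ, C = 2 ^ |μ| * (2 / |b m₀|) := ⟨_, rfl⟩
  have hC₁0 : 0 ≤ C₁ := by rw [hC₁]; positivity
  have hC₂0 : 0 ≤ C₂ := by rw [hC₂]; positivity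
  have hC₃0 : 0 ≤ C₃ := by rw [hC₃]; positivity
  obtain ⟨E, hE1, hEs⟩ : ∃ E : ℕ, 1 ≤ E ∧ 1 / (E : ℝ) ≤ s := by
    obtain ⟨E, hE⟩ := exists_nat_gt (1 / s)
    have hE0 : (0 : ℝ) < E := lt_trans (by positivity) hE
    refine ⟨E, by exact_mod_cast hE0, ?_⟩
    rw [div_le_iff₀ hE0]
    rw [div_lt_iff₀ hs0] at hE
    linarith
  have hE0 : (0 : ℝ) < E := by exact_mod_cast hE1
  obtain ⟨D₀, hD₀⟩ : ∃ D : ℝ, D = (2 / d) * (1 + (C₁ + C₂ + C₃)) + 4 * A := ⟨_, rfl⟩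
  have h2d : 2 ≤ 2 / d := by rw [le_div_iff₀ hd0]; linarith
  have hDA : 4 * A ≤ D₀ := by
    rw [hD₀]
    have : 0 ≤ (2 / d) * (1 + (C₁ + C₂ + C₃)) := by positivity
    linarith
  have hD1' : (2 / d) * (1 + C₁) ≤ D₀ := by
    rw [hD₀]
    have : (2 / d) * (1 + C₁) ≤ (2 / d) * (1 + (C₁ + C₂ + C₃)) := by
      apply mul_le_mul_of_nonneg_left _ (by positivity); linarith
    linarith
  have hD2 : (2 / d) * (1 + C₂) ≤ D₀ := by
    rw [hD₀]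
    have : (2 / d) * (1 + C₂) ≤ (2 / d) * (1 + (C₁ + C₂ + C₃)) := by
      apply mul_le_mul_of_nonneg_left _ (by positivity); linarith
    linarith
  have hD3' : (2 / d) * (1 + C₃) ≤ D₀ := by
    rw [hD₀]
    have : (2 / d) * (1 + C₃) ≤ (2 / d) * (1 + (C₁ + C₂ + C₃)) := by
      apply mul_le_mul_of_nonneg_left _ (by positivity); linarith
    linarith
  have hD₀1 : 1 ≤ D₀ := by linarith
  obtain ⟨D, hD⟩ : ∃ D : ℝ, D = D₀ ^ E := ⟨_, rfl⟩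
  have hDD₀ : D₀ ≤ D := by
    rw [hD]
    calc D₀ = D₀ ^ 1 := (pow_one _).symm
      _ ≤ D₀ ^ E := pow_le_pow_right₀ hD₀1 hE1
  have hD0 : 0 < D := by linarith
  have hD1 : (2 / d) * (1 + C₁) ≤ D := hD1'.trans hDD₀
  have hD3 : (2 / d) * (1 + C₃) ≤ D := hD3'.trans hDD₀
  have hDC₁ : C₁ ≤ D := by
    have : C₁ ≤ (2 / d) * (1 + C₁) := by nlinarith
    linarith
  -- passing from powers of `D` to powers of `D₀`
  have hroot : ∀ (x N : ℝ), 0 < x → 1 ≤ N → x ^ E ≤ N → x ≤ N ^ s := by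
    intro x N hx hN1 hxN
    have h1 : x = (x ^ E) ^ (1 / (E : ℝ)) := by
      rw [← Real.rpow_natCast, ← Real.rpow_mul hx.le, mul_one_div_cancel hE0.ne', Real.rpow_one]
    rw [h1]
    calc (x ^ E) ^ (1 / (E : ℝ)) ≤ N ^ (1 / (E : ℝ)) := Real.rpow_le_rpow (by positivity) hxN (by positivity)
      _ ≤ N ^ s := Real.rpow_le_rpow_of_exponent_le hN1 hEs
  refine ⟨D, by linarith, T + 1, ?_⟩
  intro N a hN ha1 ha2
  have hN0 : 0 < N := by linarith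
  have hN1 : 1 ≤ N := by linarith
  have ha0 : 0 < a := by linarith
  have hNas : N ^ s ≤ a ^ s := Real.rpow_le_rpow hN0.le ha1 hs0.le
  have has0 : 0 < a ^ s := Real.rpow_pos_of_pos ha0 _
  have hwa : a ^ (-s) = (a ^ s)⁻¹ := Real.rpow_neg ha0.le s
  obtain ⟨w, hw⟩ : ∃ w : ℝ, w = a ^ (-s) := ⟨_, rfl⟩
  have hw0 : 0 < w := by rw [hw]; exact Real.rpow_pos_of_pos ha0 _
  have hq : 2 * A * a ^ (-s) ≤ 1 / 2 := by
    have h1 : D₀ ≤ N ^ s := hroot D₀ N (by linarith) hN1 (by rw [← hD]; exact hN)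
    rw [hwa, ← div_eq_mul_inv, div_le_div_iff₀ has0 (by norm_num)]
    linarith
  obtain ⟨hr1, hr2⟩ := rpow_near μ N a hN0 ha1 ha2
  have haθ : 0 < a ^ θ := Real.rpow_pos_of_pos ha0 _
  have hwm : ∀ m : ℕ, w ^ m = (a ^ (s * m))⁻¹ := by
    intro m
    rw [hw, ← Real.rpow_natCast, ← Real.rpow_mul ha0.le, ← Real.rpow_neg ha0.le]
    congr 1; ring
  have haμ : a ^ θ * (2 * A * w) ^ m₀ = (2 * A) ^ m₀ * a ^ μ := by
    rw [hμ, Real.rpow_sub ha0, mul_pow _ w, hwm]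
    ring
  refine ⟨fun j => a ^ θ * sj θ s b a j / a ^ j, ?_, ?_, ?_⟩
  · -- the remainder
    intro h h0 hh k hk
    obtain ⟨z, hz⟩ : ∃ z : ℝ, z = h / a := ⟨_, rfl⟩
    have hz0 : 0 ≤ z := by rw [hz]; positivity
    have hz1 : z ≤ 1 / 4 := by rw [hz, div_le_div_iff₀ ha0 (by norm_num)]; linarith
    have hz2 : 2 * z ≤ 1 / 2 := by linarith
    have hz20 : 0 ≤ 2 * z := by positivity
    have hs := germ_hasSum θ s hs0.le hs1 T hT b A hA hb a h ha0 hq h0 hh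
    rw [← hz] at hs
    have h1 := hs.summable.sum_add_tsum_nat_add (k + 1)
    rw [hs.tsum_eq] at h1
    have h2 : ∑ j ∈ range (k + 1), a ^ θ * sj θ s b a j / a ^ j * h ^ j =
        ∑ j ∈ range (k + 1), a ^ θ * sj θ s b a j * z ^ j := by
      refine sum_congr rfl fun j _ => ?_
      rw [hz, div_pow]; ring
    rw [h2, ← h1, add_sub_cancel_left]
    have h3 : ∀ j : ℕ, ‖a ^ θ * sj θ s b a (j + (k + 1)) * z ^ (j + (k + 1))‖ ≤
        a ^ μ * (2 * A * 2 ^ T * (2 * A) ^ m₀) * (2 * z) ^ (k + 1) * (2 * z) ^ j := by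
      intro j
      rw [Real.norm_eq_abs, abs_mul, abs_mul, abs_of_pos haθ, abs_of_nonneg (pow_nonneg hz0 _)]
      have h4 := sj_le θ s hs0.le hs1 T hT b A hA hb m₀ hlow a ha0 hq (j + (k + 1)) (by omega)
      rw [← hw] at h4
      calc a ^ θ * |sj θ s b a (j + (k + 1))| * z ^ (j + (k + 1)) ≤
            a ^ θ * (2 * A * 2 ^ (T + (j + (k + 1))) * (2 * A * w) ^ m₀) * z ^ (j + (k + 1)) := by gcongr
        _ = (a ^ θ * (2 * A * w) ^ m₀) * (2 * A * 2 ^ T) * (2 ^ (j + (k + 1)) * z ^ (j + (k + 1))) := by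
            rw [pow_add 2 T]; ring
        _ = (a ^ θ * (2 * A * w) ^ m₀) * (2 * A * 2 ^ T) * (2 * z) ^ (j + (k + 1)) := by rw [← mul_pow 2 z]
        _ = _ := by rw [haμ, pow_add (2 * z)]; ring
    have h4 := tsum_of_norm_bounded ((geo_summable _ hz20 hz2).hasSum.mul_left
      (a ^ μ * (2 * A * 2 ^ T * (2 * A) ^ m₀) * (2 * z) ^ (k + 1))) h3
    rw [Real.norm_eq_abs] at h4
    refine h4.trans ?_
    have h5 := tsum_geo_le _ hz20 hz2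
    have haμ0 : 0 < a ^ μ := Real.rpow_pos_of_pos ha0 _
    have hNμ0 : 0 < N ^ μ := Real.rpow_pos_of_pos hN0 _
    rw [← hμ]
    calc a ^ μ * (2 * A * 2 ^ T * (2 * A) ^ m₀) * (2 * z) ^ (k + 1) * ∑' j : ℕ, (2 * z) ^ j ≤
          (2 ^ |μ| * N ^ μ) * (2 * A * 2 ^ T * (2 * A) ^ m₀) * (2 * z) ^ (k + 1) * 2 := by gcongr
      _ = C₁ * (2 * z) ^ (k + 1) * N ^ μ := by rw [hC₁]; ring
      _ ≤ D * (2 * z) ^ (k + 1) * N ^ μ := by gcongr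
      _ = D * (2 * h / a) ^ (k + 1) * N ^ μ := by rw [hz]; ring
  · -- the upper bound
    intro j hj
    have h4 := sj_le θ s hs0.le hs1 T hT b A hA hb m₀ hlow a ha0 hq j (by omega)
    rw [← hw] at h4
    rw [← hμ, abs_div, abs_mul, abs_of_pos haθ, abs_of_pos (by positivity : 0 < a ^ j)]
    have haj : N ^ j ≤ a ^ j := pow_le_pow_left₀ hN0.le ha1 _
    have hNμ0 : 0 < N ^ μ := Real.rpow_pos_of_pos hN0 _
    have haμ0 : 0 < a ^ μ := Real.rpow_pos_of_pos ha0 _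
    have e1 : N ^ (μ - j) = N ^ μ / N ^ j := by
      rw [Real.rpow_sub hN0, Real.rpow_natCast]
    have hcp := const_pow 2 C₁ D (by norm_num) hC₁0 (by
      refine le_trans ?_ hD1
      apply mul_le_mul_of_nonneg_right h2d (by linarith)) j (by omega)
    calc a ^ θ * |sj θ s b a j| / a ^ j ≤
          a ^ θ * (2 * A * 2 ^ (T + j) * (2 * A * w) ^ m₀) / N ^ j := by gcongr
      _ = (a ^ θ * (2 * A * w) ^ m₀) * (2 * A * 2 ^ T) * 2 ^ j / N ^ j := by rw [pow_add 2 T]; ring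
      _ = ((2 * A) ^ m₀ * a ^ μ) * (2 * A * 2 ^ T) * 2 ^ j / N ^ j := by rw [haμ]
      _ ≤ ((2 * A) ^ m₀ * (2 ^ |μ| * N ^ μ)) * (2 * A * 2 ^ T) * 2 ^ j / N ^ j := by gcongr
      _ = (C₁ / 2 * 2 ^ j) * (N ^ μ / N ^ j) := by rw [hC₁]; ring
      _ ≤ (C₁ * 2 ^ j) * (N ^ μ / N ^ j) := by gcongr; linarith
      _ ≤ D ^ j * (N ^ μ / N ^ j) := by gcongr
      _ = _ := by rw [e1]
  · -- the lower bound
    intro j hj hDj
    have h4 := sj_main θ s hs0.le hs1 T hT b A hA hb m₀ hlow a ha0 hq j (by omega)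
    rw [← hw] at h4
    have hdj := hd j
    have hdj0 : 0 < d ^ j := by positivity
    have hNμ0 : 0 < N ^ μ := Real.rpow_pos_of_pos hN0 _
    have haμ0 : 0 < a ^ μ := Real.rpow_pos_of_pos ha0 _
    have h5 : C₂ * (2 / d) ^ j ≤ N ^ s := by
      refine (const_pow (2 / d) C₂ D₀ (by positivity) hC₂0 hD2 j (by omega)).trans ?_
      apply hroot _ _ (by positivity) hN1
      rw [← pow_mul, mul_comm j E, pow_mul, ← hD]
      exact hDj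
    have h6 : |b m₀| * d ^ j * w ^ m₀ / 2 ≤ |sj θ s b a j| := by
      have h7 : |b m₀ * cf (θ - s * m₀) j * w ^ m₀| = |b m₀| * |cf (θ - s * m₀) j| * w ^ m₀ := by
        rw [abs_mul, abs_mul, abs_of_pos (by positivity : 0 < w ^ m₀)]
      have h8 : |b m₀| * d ^ j * w ^ m₀ ≤ |b m₀ * cf (θ - s * m₀) j * w ^ m₀| := by
        rw [h7]; gcongr
      have h9 : 2 * A * 2 ^ (T + j) * (2 * A * w) ^ (m₀ + 1) ≤ |b m₀| * d ^ j * w ^ m₀ / 2 := by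
        have h10 : C₂ * (2 / d) ^ j ≤ a ^ s := h5.trans hNas
        have h10' : (C₂ * (2 / d) ^ j) * w ≤ 1 := by
          calc (C₂ * (2 / d) ^ j) * w ≤ a ^ s * w := by gcongr
            _ = 1 := by rw [hw, hwa, mul_inv_cancel₀ has0.ne']
        have h11 : 2 * A * 2 ^ (T + j) * (2 * A * w) ^ (m₀ + 1) =
            ((C₂ * (2 / d) ^ j) * w) * (|b m₀| * d ^ j * w ^ m₀ / 2) := by
          rw [hC₂, pow_add 2 T, div_pow, mul_pow (2 * A) w, pow_succ w]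
          field_simp
          ring
        rw [h11]
        calc ((C₂ * (2 / d) ^ j) * w) * (|b m₀| * d ^ j * w ^ m₀ / 2) ≤
              1 * (|b m₀| * d ^ j * w ^ m₀ / 2) := by gcongr
          _ = _ := one_mul _
      have h10 := abs_sub_abs_le_abs_sub (b m₀ * cf (θ - s * m₀) j * w ^ m₀) (sj θ s b a j)
      rw [abs_sub_comm] at h10
      linarith
    rw [← hμ, abs_div, abs_mul, abs_of_pos haθ, abs_of_pos (by positivity : 0 < a ^ j)]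
    have haj : a ^ j ≤ 2 ^ j * N ^ j := by
      rw [← mul_pow]; exact pow_le_pow_left₀ ha0.le ha2 _
    have e1 : N ^ (μ - j) = N ^ μ / N ^ j := by
      rw [Real.rpow_sub hN0, Real.rpow_natCast]
    have e2 : a ^ θ * (w ^ m₀) = a ^ μ := by
      rw [hμ, Real.rpow_sub ha0, hwm]; ring
    have hcp := const_pow (2 / d) C₃ D (by positivity) hC₃0 hD3 j (by omega)
    rw [e1]
    calc N ^ μ / N ^ j ≤ (2 ^ |μ| * a ^ μ) / N ^ j := by gcongr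
      _ = (C₃ * (2 / d) ^ j) * ((a ^ μ * (|b m₀| * d ^ j / 2)) / (2 ^ j * N ^ j)) := by
          rw [hC₃, div_pow]
          field_simp
      _ ≤ D ^ j * ((a ^ μ * (|b m₀| * d ^ j / 2)) / a ^ j) := by gcongr
      _ = D ^ j * (a ^ θ * (|b m₀| * d ^ j * w ^ m₀ / 2) / a ^ j) := by rw [← e2]; ring
      _ ≤ D ^ j * (a ^ θ * |sj θ s b a j| / a ^ j) := by gcongr

end Pool.Agent.Helper478.Short
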