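import Pool.Agent.Helper478_Surds.Fin

/-!
# Weyl sums over windows, for finitely many abstract families
-/

set_option autoImplicit false

namespace Pool.Agent.Helper478.Short

open Finset Filter
open Pool.Agent.H469R2.NK (e norm_e e_add e_zero conj_e)
open Pool.Agent.Helper478.Surds (ev_pow FreqBd devH windows)

/-- **Abstract form** of the passage from exponential sums to windows of digits -/
theorem weyl_abs (γ₀ : ℝ) (hγ0 : 0 < γ₀) (hγ1 : γ₀ ≤ 1 / 100) (K : ℕ) (ε' : ℝ) (hε' : 0 < ε') :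
    ∃ y₀ : ℝ, ∀ (y : ℝ) (R : ℕ) (ι : Type) (A : Finset ι) (ν : ι → ℕ → ℝ) (P : ℕ → ℕ → Prop),
      y₀ ≤ y → A.card ≤ K → (∀ b u u' : ℕ, u ≤ u' → P b u → P b u') →
      (∀ h ∈ A, ∀ b u k : ℕ, 2 ≤ b → P b u → ((u + k : ℕ) : ℝ) * Real.log b ≤ y ^ (1 + γ₀ / 2) →
        FreqBd (Ioc 0 R) (ν h) 1 b u k (R * Real.exp (-(2 * y ^ (1 - 9 * γ₀))))) →
      (({n : ℕ | 1 ≤ n ∧ n ≤ R ∧ ∃ b u v : ℕ, 2 ≤ b ∧ y ^ (1 - γ₀ / 2) ≤ (v : ℝ) - u ∧
        v * Real.log b ≤ y ^ (1 + γ₀ / 2) ∧ P b u ∧ ∃ h ∈ A, ε' * ((v : ℝ) - u) <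
          ‖∑ i ∈ Icc 1 (v - u), e ((b : ℝ) ^ (u + i) * ν h n)‖}.ncard : ℕ) : ℝ) ≤
        R * Real.exp (-√y) := by
  classical
  -- parameters
  obtain ⟨ε, hε⟩ : ∃ ε : ℝ, ε = min ε' 1 := ⟨_, rfl⟩
  have hε0 : 0 < ε := by rw [hε]; exact lt_min hε' one_pos
  have hε1 : ε ≤ 1 := by rw [hε]; exact min_le_right _ _
  have hεε' : ε ≤ ε' := by rw [hε]; exact min_le_left _ _
  obtain ⟨η, hη⟩ : ∃ η : ℝ, η = ε / 2 := ⟨_, rfl⟩
  have hη0 : 0 < η := by rw [hη]; positivity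
  have hη1 : η ≤ 1 := by rw [hη]; linarith
  -- eventual inequalities
  have ev4 : ∀ᶠ y : ℝ in atTop, (1 : ℝ) ≤ y := eventually_ge_atTop _
  have ev5 : ∀ᶠ y : ℝ in atTop, (16 / η ^ 2 * 3) * y ^ (1 / 2 : ℝ) ≤ y ^ (1 - 9 * γ₀) :=
    ev_pow _ _ _ (by linarith)
  have ev6 : ∀ᶠ y : ℝ in atTop, 8 * K * (2 * y ^ 2 + 2) * (2 * y) ≤ Real.exp (y ^ (1 / 2 : ℝ)) := by
    have t1 := Real.tendsto_pow_mul_exp_neg_atTop_nhds_zero 6
    have t2 := t1.comp (tendsto_rpow_atTop (by norm_num : (0 : ℝ) < 1 / 2))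
    have t3 := t2.eventually (ge_mem_nhds (show (0 : ℝ) < 1 / (64 * ((K : ℝ) + 1)) by positivity))
    filter_upwards [t3, eventually_ge_atTop 1] with y hy hy1
    have hy0 : 0 < y := by linarith
    simp only [Function.comp] at hy
    have f1 : (y ^ (1 / 2 : ℝ)) ^ 6 = y ^ 3 := by
      rw [← Real.rpow_natCast, ← Real.rpow_mul hy0.le, ← Real.rpow_natCast]
      norm_num
    rw [f1, Real.exp_neg, ← div_eq_mul_inv, div_le_div_iff₀ (Real.exp_pos _) (by positivity)] at hy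
    have hK0 : (0 : ℝ) ≤ K := Nat.cast_nonneg _
    have f3 : y ≤ y ^ 3 := by nlinarith [sq_nonneg y]
    have f5 : (K : ℝ) * y ≤ K * y ^ 3 := by gcongr
    have f6 : 0 ≤ y ^ 3 := by positivity
    have f2 : 8 * (K : ℝ) * (2 * y ^ 2 + 2) * (2 * y) ≤ y ^ 3 * (64 * (K + 1)) := by
      have f4 : 8 * (K : ℝ) * (2 * y ^ 2 + 2) * (2 * y) = 32 * (K * y ^ 3) + 32 * (K * y) := by ring
      rw [f4]
      have f7 : y ^ 3 * (64 * ((K : ℝ) + 1)) = 64 * (K * y ^ 3) + 64 * y ^ 3 := by ring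
      rw [f7]
      linarith
    linarith
  have ev7 : ∀ᶠ y : ℝ in atTop, 2 * y ^ (0 : ℝ) ≤ y ^ (1 - 9 * γ₀) := ev_pow _ _ _ (by linarith)
  obtain ⟨y₀, hy₀⟩ := eventually_atTop.1 ((ev4.and (ev5.and ev6)).and (ev7.and (eventually_ge_atTop 10)))
  refine ⟨y₀, ?_⟩
  intro y R ι A ν P hy hAK hP hfreq
  obtain ⟨⟨q4, q5, q6⟩, q7, q8⟩ := hy₀ y hy
  have hy0 : 0 < y := by linarith
  have hy1 : 1 ≤ y := by linarith
  have hR0 : (0 : ℝ) ≤ R := Nat.cast_nonneg R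
  rw [Real.rpow_zero, mul_one] at q7
  -- the block length
  obtain ⟨m, hm⟩ : ∃ m : ℕ, m = ⌊y ^ (1 - 9 * γ₀)⌋₊ := ⟨_, rfl⟩
  have hm1 : 1 ≤ m := by
    rw [hm]; exact Nat.le_floor (by push_cast; linarith)
  have hmle : (m : ℝ) ≤ y ^ (1 - 9 * γ₀) := by rw [hm]; exact Nat.floor_le (by positivity)
  have hmge : y ^ (1 - 9 * γ₀) / 2 ≤ m := by
    have := Nat.lt_floor_add_one (y ^ (1 - 9 * γ₀))
    rw [← hm] at this
    linarith
  have hmy : (m : ℝ) ≤ y := by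
    refine hmle.trans ?_
    calc y ^ (1 - 9 * γ₀) ≤ y ^ (1 : ℝ) := Real.rpow_le_rpow_of_exponent_le hy1 (by linarith)
      _ = y := Real.rpow_one _
  have hmwin : (m : ℝ) ≤ y ^ (1 - γ₀ / 2) :=
    hmle.trans (Real.rpow_le_rpow_of_exponent_le hy1 (by linarith))
  obtain ⟨W, hW⟩ : ∃ W : ℝ, W = R * Real.exp (-(2 * y ^ (1 - 9 * γ₀))) := ⟨_, rfl⟩
  have hW0 : 0 ≤ W := by rw [hW]; positivity
  rw [← hW] at hfreq
  have h2W : ∀ k : ℕ, k < 2 * m → 2 ^ k * W ≤ R := by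
    intro k hk
    have e1 : (2 : ℝ) ^ k ≤ Real.exp (2 * y ^ (1 - 9 * γ₀)) := by
      have hk' : (k : ℝ) ≤ 2 * m := by exact_mod_cast hk.le
      calc (2 : ℝ) ^ k ≤ (Real.exp 1) ^ k := by
            apply pow_le_pow_left₀ (by norm_num)
            have := Real.exp_one_gt_d9; linarith
        _ = Real.exp k := by rw [← Real.exp_nat_mul, mul_one]
        _ ≤ Real.exp (2 * y ^ (1 - 9 * γ₀)) := Real.exp_le_exp.2 (by linarith)
    calc (2 : ℝ) ^ k * W ≤ Real.exp (2 * y ^ (1 - 9 * γ₀)) * W := by gcongr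
      _ = R * (Real.exp (2 * y ^ (1 - 9 * γ₀)) * Real.exp (-(2 * y ^ (1 - 9 * γ₀)))) := by rw [hW]; ring
      _ = R := by rw [← Real.exp_add, add_neg_cancel, Real.exp_zero, mul_one]
  -- the bad sets
  obtain ⟨Bm, hBm⟩ : ∃ Bm : ℕ, Bm = ⌊Real.exp (y ^ (1 / 2 : ℝ))⌋₊ := ⟨_, rfl⟩
  obtain ⟨U, hU⟩ : ∃ U : ℕ, U = ⌊2 * y ^ 2⌋₊ := ⟨_, rfl⟩
  let Bad : ℕ → ℕ → ℕ → ι → Finset ℕ := fun b u k h =>
    if (2 ≤ b ∧ P b u ∧ ((u + k : ℕ) : ℝ) * Real.log b ≤ y ^ (1 + γ₀ / 2)) then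
      (Ioc 0 R).filter fun n : ℕ => 2 * η * k < ‖∑ i ∈ Icc 1 k, e (1 * (b : ℝ) ^ (u + i) * ν h n)‖
    else ∅
  have hbad : ∀ b ∈ range (Bm + 1), ∀ u ∈ range (U + 1), ∀ k ∈ Ico m (2 * m), ∀ h ∈ A,
      ((Bad b u k h).card : ℝ) ≤ 8 * R * Real.exp (-(η ^ 2 * m / 8)) := by
    intro b _ u _ k hk h hh
    simp only [Bad]
    rw [mem_Ico] at hk
    split_ifs with hcond
    · have g1 := devH 1 η hη0 hη1 b u k hcond.1 (Ioc 0 R) (ν h) W
        (hfreq h hh b u k hcond.1 hcond.2.1 hcond.2.2) hW0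
      refine g1.trans ?_
      rw [Nat.card_Ioc, Nat.sub_zero]
      have g2 := h2W k hk.2
      have g3 : Real.exp (-(η ^ 2 * k / 8)) ≤ Real.exp (-(η ^ 2 * m / 8)) := by
        apply Real.exp_le_exp.2
        have : (m : ℝ) ≤ k := by exact_mod_cast hk.1
        have g4 : η ^ 2 * m ≤ η ^ 2 * k := by gcongr
        linarith
      calc 4 * (Real.exp (-(η ^ 2 * k / 8)) * ((R : ℝ) + 2 ^ k * W)) ≤
            4 * (Real.exp (-(η ^ 2 * m / 8)) * (R + R)) := by gcongr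
        _ = _ := by ring
    · simp only [card_empty, Nat.cast_zero]
      positivity
  obtain ⟨T, hT⟩ : ∃ T : Finset ℕ, T = (range (Bm + 1)).biUnion fun b => (range (U + 1)).biUnion fun u =>
    (Ico m (2 * m)).biUnion fun k => A.biUnion fun h => Bad b u k h := ⟨_, rfl⟩
  have hsub : {n : ℕ | 1 ≤ n ∧ n ≤ R ∧ ∃ b u v : ℕ, 2 ≤ b ∧ y ^ (1 - γ₀ / 2) ≤ (v : ℝ) - u ∧
        v * Real.log b ≤ y ^ (1 + γ₀ / 2) ∧ P b u ∧ ∃ h ∈ A, ε' * ((v : ℝ) - u) <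
          ‖∑ i ∈ Icc 1 (v - u), e ((b : ℝ) ^ (u + i) * ν h n)‖} ⊆ ((T : Finset ℕ) : Set ℕ) := by
    rintro n ⟨a1, a2, b, u, v, hb, a3, a4, a5, h, hh, a6⟩
    rw [Finset.mem_coe]
    by_contra hcon
    refine absurd a6 (not_lt.2 ?_)
    have huv : (u : ℝ) < v := by
      have : 0 < y ^ (1 - γ₀ / 2) := Real.rpow_pos_of_pos hy0 _
      linarith
    have huv' : u < v := by exact_mod_cast huv
    have hvu : ((v - u : ℕ) : ℝ) = v - u := by rw [Nat.cast_sub huv'.le]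
    have hmvu : m ≤ v - u := by
      have : (m : ℝ) ≤ ((v - u : ℕ) : ℝ) := by rw [hvu]; linarith
      exact_mod_cast this
    have hb0 : (0 : ℝ) < b := by exact_mod_cast (by omega : 0 < b)
    have hb2 : (2 : ℝ) ≤ b := by exact_mod_cast hb
    have hlb : 0 < Real.log b := Real.log_pos (by linarith)
    have hl2 : Real.log 2 ≤ Real.log b := Real.log_le_log (by norm_num) hb2
    have hl2' : (1 : ℝ) / 2 ≤ Real.log 2 := by have := Real.log_two_gt_d9; linarith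
    -- size of `b`
    have hbB : b ≤ Bm := by
      rw [hBm]
      apply Nat.le_floor
      rw [← Real.exp_log hb0]
      apply Real.exp_le_exp.2
      have g1 : y ^ (1 - γ₀ / 2) * Real.log b ≤ y ^ (1 + γ₀ / 2) := by
        have g0 : y ^ (1 - γ₀ / 2) ≤ v := by linarith [(Nat.cast_nonneg u : (0:ℝ) ≤ u)]
        calc y ^ (1 - γ₀ / 2) * Real.log b ≤ v * Real.log b := by gcongr
          _ ≤ _ := a4
      have g2 : y ^ (1 + γ₀ / 2) = y ^ (1 - γ₀ / 2) * y ^ γ₀ := by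
        rw [← Real.rpow_add hy0]; congr 1; ring
      rw [g2] at g1
      have g3 := le_of_mul_le_mul_left g1 (Real.rpow_pos_of_pos hy0 _)
      exact g3.trans (Real.rpow_le_rpow_of_exponent_le hy1 (by linarith))
    have hvU : v ≤ U := by
      rw [hU]
      apply Nat.le_floor
      have g1 : (v : ℝ) * (1 / 2) ≤ y ^ (1 + γ₀ / 2) := by
        calc (v : ℝ) * (1 / 2) ≤ v * Real.log b := by
              gcongr
              linarith
          _ ≤ _ := a4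
      have g2 : y ^ (1 + γ₀ / 2) ≤ y ^ 2 := by
        rw [← Real.rpow_natCast y 2]
        exact Real.rpow_le_rpow_of_exponent_le hy1 (by push_cast; linarith)
      linarith
    have hnR : n ∈ Ioc 0 R := by rw [mem_Ioc]; omega
    -- all blocks
    have hwin := windows (fun i => e (1 * (b : ℝ) ^ (u + i) * ν h n)) m (v - u) (2 * η) hm1
      (by
        intro u' k hk1 hk2 hk3
        by_contra hcon2
        push Not at hcon2
        apply hcon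
        rw [hT, mem_biUnion]
        refine ⟨b, by rw [mem_range]; omega, ?_⟩
        rw [mem_biUnion]
        refine ⟨u + u', by rw [mem_range]; omega, ?_⟩
        rw [mem_biUnion]
        refine ⟨k, by rw [mem_Ico]; omega, ?_⟩
        rw [mem_biUnion]
        refine ⟨h, hh, ?_⟩
        simp only [Bad]
        rw [if_pos]
        · rw [mem_filter]
          refine ⟨hnR, ?_⟩
          have : ∀ i, u + u' + i = u + (u' + i) := fun i => by ring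
          simp_rw [this]
          exact hcon2
        · refine ⟨hb, hP b u (u + u') (by omega) a5, ?_⟩
          refine le_trans ?_ a4
          apply mul_le_mul_of_nonneg_right _ hlb.le
          exact_mod_cast (by omega : u + u' + k ≤ v)) (v - u) 0 hmvu (by omega)
    simp only [zero_add, one_mul] at hwin
    refine hwin.trans ?_
    rw [hvu, hη]
    have : 0 ≤ (v : ℝ) - u := by linarith
    calc 2 * (ε / 2) * ((v : ℝ) - u) = ε * ((v : ℝ) - u) := by ring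
      _ ≤ ε' * ((v : ℝ) - u) := by gcongr
  have hcard := Set.ncard_le_ncard hsub (Finset.finite_toSet _)
  rw [Set.ncard_coe_finset] at hcard
  have hTcard : (T.card : ℝ) ≤ ∑ b ∈ range (Bm + 1), ∑ u ∈ range (U + 1), ∑ k ∈ Ico m (2 * m),
      ∑ h ∈ A, 8 * R * Real.exp (-(η ^ 2 * m / 8)) := by
    have g1 : T.card ≤ ∑ b ∈ range (Bm + 1), ∑ u ∈ range (U + 1), ∑ k ∈ Ico m (2 * m),
        ∑ h ∈ A, (Bad b u k h).card := by
      rw [hT]
      exact card_biUnion_le.trans (sum_le_sum fun b _ => card_biUnion_le.trans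
        (sum_le_sum fun u _ => card_biUnion_le.trans (sum_le_sum fun k _ => card_biUnion_le)))
    have g2 : (T.card : ℝ) ≤ ∑ b ∈ range (Bm + 1), ∑ u ∈ range (U + 1), ∑ k ∈ Ico m (2 * m),
        ∑ h ∈ A, ((Bad b u k h).card : ℝ) := by exact_mod_cast g1
    exact g2.trans (sum_le_sum fun b hb => sum_le_sum fun u hu => sum_le_sum fun k hk =>
      sum_le_sum fun h hh => hbad b hb u hu k hk h hh)
  have hfin : (({n : ℕ | 1 ≤ n ∧ n ≤ R ∧ ∃ b u v : ℕ, 2 ≤ b ∧ y ^ (1 - γ₀ / 2) ≤ (v : ℝ) - u ∧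
        v * Real.log b ≤ y ^ (1 + γ₀ / 2) ∧ P b u ∧ ∃ h ∈ A, ε' * ((v : ℝ) - u) <
          ‖∑ i ∈ Icc 1 (v - u), e ((b : ℝ) ^ (u + i) * ν h n)‖}.ncard : ℕ) : ℝ) ≤ T.card := by
    exact_mod_cast hcard
  refine hfin.trans (hTcard.trans ?_)
  simp only [sum_const, card_range, Nat.card_Ico, nsmul_eq_mul]
  have g1 : ((Bm + 1 : ℕ) : ℝ) ≤ 2 * Real.exp (y ^ (1 / 2 : ℝ)) := by
    have f1 : (Bm : ℝ) ≤ Real.exp (y ^ (1 / 2 : ℝ)) := by
      rw [hBm]; exact Nat.floor_le (Real.exp_pos _).le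
    have f2 : 1 ≤ Real.exp (y ^ (1 / 2 : ℝ)) := Real.one_le_exp (by positivity)
    push_cast; linarith
  have g2 : ((U + 1 : ℕ) : ℝ) ≤ 2 * y ^ 2 + 2 := by
    have f1 : (U : ℝ) ≤ 2 * y ^ 2 := by rw [hU]; exact Nat.floor_le (by positivity)
    push_cast; linarith
  have g3 : ((2 * m - m : ℕ) : ℝ) ≤ y := by
    rw [show 2 * m - m = m by omega]; exact hmy
  have g4 : Real.exp (-(η ^ 2 * m / 8)) ≤ Real.exp (-(3 * y ^ (1 / 2 : ℝ))) := by
    apply Real.exp_le_exp.2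
    have f1 : 16 / η ^ 2 * 3 * y ^ (1 / 2 : ℝ) * (η ^ 2 / 16) = 3 * y ^ (1 / 2 : ℝ) := by field_simp
    have f2 := mul_le_mul_of_nonneg_right q5 (by positivity : 0 ≤ η ^ 2 / 16)
    rw [f1] at f2
    have f3 : η ^ 2 / 16 * y ^ (1 - 9 * γ₀) ≤ η ^ 2 * m / 8 := by
      have : η ^ 2 * (y ^ (1 - 9 * γ₀) / 2) ≤ η ^ 2 * m := by gcongr
      linarith
    linarith
  have g5 : (A.card : ℝ) ≤ K := by exact_mod_cast hAK
  have hsqrt : √y = y ^ (1 / 2 : ℝ) := Real.sqrt_eq_rpow y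
  rw [hsqrt]
  obtain ⟨E, hE⟩ : ∃ E : ℝ, E = Real.exp (y ^ (1 / 2 : ℝ)) := ⟨_, rfl⟩
  have hE0 : 0 < E := by rw [hE]; exact Real.exp_pos _
  have hE3 : Real.exp (-(3 * y ^ (1 / 2 : ℝ))) = 1 / E ^ 3 := by
    have e1 : E ^ 3 = Real.exp (3 * y ^ (1 / 2 : ℝ)) := by
      rw [hE, ← Real.exp_nat_mul]; push_cast; rfl
    rw [e1, Real.exp_neg]
    exact (one_div _).symm
  have hE1 : Real.exp (-(y ^ (1 / 2 : ℝ))) = 1 / E := by
    rw [Real.exp_neg, hE]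
    exact (one_div _).symm
  rw [← hE] at g1 q6
  rw [hE3] at g4
  rw [hE1]
  calc ((Bm + 1 : ℕ) : ℝ) * (((U + 1 : ℕ) : ℝ) * (((2 * m - m : ℕ) : ℝ) *
        ((A.card : ℝ) * (8 * R * Real.exp (-(η ^ 2 * m / 8)))))) ≤
        (2 * E) * ((2 * y ^ 2 + 2) * (y * (K * (8 * R * (1 / E ^ 3))))) := by gcongr
    _ = (8 * K * (2 * y ^ 2 + 2) * (2 * y)) * (R * (1 / E ^ 2)) := by field_simp
    _ ≤ E * (R * (1 / E ^ 2)) := by gcongr
    _ = R * (1 / E) := by field_simp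

end Pool.Agent.Helper478.Short
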