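import Pool.Agent.Helper478_Short.Fam
import Pool.Agent.Helper478_Short.Abs
import Pool.Agent.Helper478_Joint.ET

/-!
# Joint digits of `n ^ θ g₁ (n ^ (-s)), …, n ^ θ g_r (n ^ (-s))` for analytic `g_j`
-/

set_option autoImplicit false

namespace Pool.Agent.Helper478.Short

open Finset Filter Topology
open Pool.Agent.H469R2.NK (e norm_e e_add e_zero conj_e)
open Pool.Agent.Helper478.Surds (ev_pow FreqBd)
open Pool.Agent.Helper478.Joint (weyl_box)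

/-- coefficients of one analytic function -/
lemma coeffs (g : ℝ → ℝ) (hg : AnalyticAt ℝ g 0) : ∃ (c : ℕ → ℝ) (B : ℝ), 1 ≤ B ∧
    (∀ m, |c m| ≤ B ^ (m + 1)) ∧ ∀ s : ℝ, 0 < s →
      ∀ᶠ t : ℝ in atTop, HasSum (fun m => c m * (t ^ (-s)) ^ m) (g (t ^ (-s))) := by
  obtain ⟨p, hp⟩ := hg
  obtain ⟨r, hr⟩ := hp
  obtain ⟨r', hr'0, hr'⟩ := ENNReal.lt_iff_exists_nnreal_btwn.1 hr.r_pos
  have hr'1 : (0 : NNReal) < r' := by exact_mod_cast hr'0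
  obtain ⟨C, hC, hpC⟩ := p.norm_le_div_pow_of_pos_of_lt_radius hr'1 (hr'.trans_le hr.r_le)
  have hr'R : (0 : ℝ) < r' := by exact_mod_cast hr'1
  refine ⟨p.coeff, max 1 (max C (1 / r')), le_max_left _ _, ?_, ?_⟩
  · intro m
    have h1 : |p.coeff m| ≤ C / (r' : ℝ) ^ m := by
      rw [← Real.norm_eq_abs, ← FormalMultilinearSeries.norm_apply_eq_norm_coef]
      exact hpC m
    refine h1.trans ?_
    rw [pow_succ, div_eq_mul_one_div, mul_comm, ← one_div_pow]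
    have h2 : C ≤ max 1 (max C (1 / (r' : ℝ))) := (le_max_left _ _).trans (le_max_right _ _)
    have h3 : 1 / (r' : ℝ) ≤ max 1 (max C (1 / (r' : ℝ))) := (le_max_right _ _).trans (le_max_right _ _)
    gcongr
  · intro s hs
    have h1 : Tendsto (fun t : ℝ => t ^ (-s)) atTop (𝓝 0) := tendsto_rpow_neg_atTop hs
    have h2 : ∀ᶠ y in 𝓝 (0 : ℝ), y ∈ Metric.eball (0 : ℝ) r := Metric.eball_mem_nhds 0 hr.r_pos
    filter_upwards [h1.eventually h2] with t ht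
    have h3 := hr.hasSum ht
    rw [zero_add] at h3
    have e1 : (fun m => p.coeff m * (t ^ (-s)) ^ m) = fun n => (p n) fun _ => t ^ (-s) := by
      funext m
      rw [FormalMultilinearSeries.apply_eq_pow_smul_coeff, smul_eq_mul, mul_comm]
    rw [e1]
    exact h3

/-- coefficients of the integer combinations -/
lemma coeffs_comb {r : ℕ} (θ s : ℝ) (hs : 0 < s) (g : Fin r → ℝ → ℝ)
    (hg : ∀ j, AnalyticAt ℝ (g j) 0) (Z : Fin r → ℤ)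
    (hZ : ¬ ∃ P : Polynomial ℝ, ∀ᶠ t : ℝ in atTop,
      t ^ θ * ∑ j, (Z j : ℝ) * g j (t ^ (-s)) = P.eval t) :
    ∃ (b : ℕ → ℝ) (A : ℝ), 1 ≤ A ∧ (∀ m, |b m| ≤ A ^ (m + 1)) ∧ (∃ m₀ : ℕ, b m₀ ≠ 0 ∧
      (∀ i : ℕ, θ - s * m₀ ≠ i) ∧ ∀ m < m₀, b m = 0 ∨ ∃ i : ℕ, θ - s * m = i) ∧
      ∀ᶠ t : ℝ in atTop, t ^ θ * ∑ j, (Z j : ℝ) * g j (t ^ (-s)) = germ θ s b t := by
  classical
  choose c B hB1 hcB hc using fun j => coeffs (g j) (hg j)
  obtain ⟨b, hb⟩ : ∃ b : ℕ → ℝ, b = fun m => ∑ j, (Z j : ℝ) * c j m := ⟨_, rfl⟩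
  obtain ⟨L, hL⟩ : ∃ L : ℝ, L = 1 + ∑ j, |(Z j : ℝ)| := ⟨_, rfl⟩
  have hL1 : 1 ≤ L := by
    rw [hL]; linarith [sum_nonneg fun j (_ : j ∈ (univ : Finset (Fin r))) => abs_nonneg (Z j : ℝ)]
  obtain ⟨B', hB'⟩ : ∃ B' : ℝ, B' = 1 + ∑ j, B j := ⟨_, rfl⟩
  have hBj : ∀ j, 0 ≤ B j := fun j => by linarith [hB1 j]
  have hB'1 : 1 ≤ B' := by
    rw [hB']; linarith [sum_nonneg fun j (_ : j ∈ (univ : Finset (Fin r))) => hBj j]
  have hBB' : ∀ j, B j ≤ B' := by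
    intro j
    rw [hB']
    linarith [single_le_sum (f := B) (fun i _ => hBj i) (mem_univ j)]
  have hbA : ∀ m, |b m| ≤ (L * B') ^ (m + 1) := by
    intro m
    rw [hb]
    calc |∑ j, (Z j : ℝ) * c j m| ≤ ∑ j, |(Z j : ℝ) * c j m| := abs_sum_le_sum_abs _ _
      _ ≤ ∑ j, |(Z j : ℝ)| * B' ^ (m + 1) := by
          refine sum_le_sum fun j _ => ?_
          rw [abs_mul]
          have h1 := hcB j m
          have h2 : B j ^ (m + 1) ≤ B' ^ (m + 1) := pow_le_pow_left₀ (hBj j) (hBB' j) _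
          have h3 := h1.trans h2
          gcongr
      _ = (∑ j, |(Z j : ℝ)|) * B' ^ (m + 1) := by rw [sum_mul]
      _ ≤ L * B' ^ (m + 1) := by
          apply mul_le_mul_of_nonneg_right _ (by positivity)
          rw [hL]; linarith
      _ ≤ L ^ (m + 1) * B' ^ (m + 1) := by
          apply mul_le_mul_of_nonneg_right _ (by positivity)
          calc L = L ^ 1 := (pow_one _).symm
            _ ≤ L ^ (m + 1) := pow_le_pow_right₀ hL1 (by omega)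
      _ = _ := by rw [mul_pow]
  have hLB : 1 ≤ L * B' := by nlinarith
  have hgerm : ∀ᶠ t : ℝ in atTop, t ^ θ * ∑ j, (Z j : ℝ) * g j (t ^ (-s)) = germ θ s b t := by
    have h1 : ∀ᶠ t : ℝ in atTop, ∀ j, HasSum (fun m => c j m * (t ^ (-s)) ^ m) (g j (t ^ (-s))) :=
      eventually_all.2 fun j => hc j s hs
    filter_upwards [h1, eventually_gt_atTop 0] with t ht ht0
    have h2 : HasSum (fun m => ∑ j, (Z j : ℝ) * (c j m * (t ^ (-s)) ^ m))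
        (∑ j, (Z j : ℝ) * g j (t ^ (-s))) :=
      hasSum_sum fun j _ => (ht j).mul_left _
    have h3 := h2.mul_left (t ^ θ)
    unfold germ
    rw [← h3.tsum_eq]
    refine tsum_congr fun m => ?_
    have e2 : (t ^ (-s)) ^ m = (t ^ (s * m))⁻¹ := by
      rw [← Real.rpow_natCast, ← Real.rpow_mul ht0.le, ← Real.rpow_neg ht0.le]
      congr 1; ring
    rw [Real.rpow_sub ht0, hb, e2]
    simp only
    rw [sum_mul, mul_sum]
    refine sum_congr rfl fun j _ => ?_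
    ring
  refine ⟨b, L * B', hLB, hbA, ?_, hgerm⟩
  -- existence of the main term
  by_cases hex : ∃ m : ℕ, b m ≠ 0 ∧ ∀ i : ℕ, θ - s * m ≠ i
  · refine ⟨Nat.find hex, (Nat.find_spec hex).1, (Nat.find_spec hex).2, ?_⟩
    intro m hm
    have := Nat.find_min hex hm
    push Not at this
    by_cases hbm : b m = 0
    · exact Or.inl hbm
    · exact Or.inr (this hbm)
  · exfalso
    push Not at hex
    apply hZ
    obtain ⟨M₀, hM₀⟩ := exists_nat_gt (|θ| / s)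
    rw [div_lt_iff₀ hs] at hM₀
    refine ⟨∑ m ∈ range M₀, Polynomial.C (b m) * Polynomial.X ^ (⌊θ - s * m⌋₊), ?_⟩
    filter_upwards [hgerm, eventually_gt_atTop 0] with t ht ht0
    rw [ht]
    unfold germ
    rw [tsum_eq_sum (s := range M₀)]
    · rw [Polynomial.eval_finset_sum]
      refine sum_congr rfl fun m _ => ?_
      rw [Polynomial.eval_mul, Polynomial.eval_C, Polynomial.eval_pow, Polynomial.eval_X]
      by_cases hbm : b m = 0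
      · rw [hbm]; ring
      · obtain ⟨i, hi⟩ := hex m hbm
        rw [hi, Nat.floor_natCast, Real.rpow_natCast]
    · intro m hm
      rw [mem_range, not_lt] at hm
      by_cases hbm : b m = 0
      · rw [hbm]; ring
      · exfalso
        obtain ⟨i, hi⟩ := hex m hbm
        have h1 : (M₀ : ℝ) ≤ m := by exact_mod_cast hm
        have h2 := le_abs_self θ
        have h3 : (0 : ℝ) ≤ i := Nat.cast_nonneg i
        have h4 := mul_le_mul_of_nonneg_right h1 hs.le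
        linarith

/-- **Joint digits for analytic families in short intervals** -/
theorem an_digits : ∃ γ : ℝ, 0 < γ ∧ ∀ (r : ℕ) (θ s : ℝ), 0 < s → s ≤ 1 → ∀ (g : Fin r → ℝ → ℝ),
    (∀ j, AnalyticAt ℝ (g j) 0) →
    (∀ Z : Fin r → ℤ, Z ≠ 0 →
      ¬ ∃ P : Polynomial ℝ, ∀ᶠ t : ℝ in atTop, t ^ θ * ∑ j, (Z j : ℝ) * g j (t ^ (-s)) = P.eval t) →
    ∀ ρ : ℝ, 0 < ρ → ρ ≤ 1 → ∀ ε : ℝ, 0 < ε → ∃ C : ℝ, ∃ N₀ : ℕ, ∀ N R : ℕ, N₀ ≤ N →
      (N : ℝ) ^ ρ ≤ R → R ≤ N →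
      (({n : ℕ | 1 ≤ n ∧ n ≤ R ∧ ∃ b u v : ℕ, 2 ≤ b ∧ (Real.log N) ^ (1 - γ) ≤ (v : ℝ) - u ∧
        v * Real.log b ≤ (Real.log N) ^ (1 + γ) ∧ C * Real.log N ≤ u * Real.log b ∧
        ∃ p q : Fin r → ℝ, (∀ j, 0 ≤ p j ∧ p j ≤ q j ∧ q j ≤ 1) ∧
          ε * ((v : ℝ) - u) < |(({i : ℕ | u < i ∧ i ≤ v ∧ ∀ j,
            p j ≤ Int.fract (((N : ℝ) + n) ^ θ * g j (((N : ℝ) + n) ^ (-s)) * (b : ℝ) ^ i) ∧
            Int.fract (((N : ℝ) + n) ^ θ * g j (((N : ℝ) + n) ^ (-s)) * (b : ℝ) ^ i) < q j}.ncard : ℕ) : ℝ) -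
              ((v : ℝ) - u) * ∏ j, (q j - p j)|}.ncard : ℕ) : ℝ) ≤
          R * Real.exp (-√(Real.log N)) := by
  classical
  obtain ⟨γ₀, hγ0, hγ1, hfam⟩ := fam_bd
  refine ⟨γ₀ / 2, by positivity, ?_⟩
  intro r θ s hs0 hs1 g hg hpoly ρ hρ0 hρ1 ε hε
  obtain ⟨K, ε', hε', hbox⟩ := weyl_box r ε hε
  obtain ⟨𝒵, h𝒵⟩ : ∃ 𝒵 : Finset (Fin r → ℤ), 𝒵 = (Fintype.piFinset fun _ : Fin r => Icc (-(K : ℤ)) K).erase 0 :=
    ⟨_, rfl⟩
  have hmem : ∀ Z : Fin r → ℤ, Z ∈ 𝒵 ↔ Z ≠ 0 ∧ ∀ j, |Z j| ≤ K := by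
    intro Z
    rw [h𝒵, mem_erase, Fintype.mem_piFinset]
    refine and_congr_right fun _ => forall_congr' fun j => ?_
    rw [mem_Icc, abs_le]
  -- the data of every `Z`
  have hdata : ∀ Z : Fin r → ℤ, ∃ (C : ℝ) (N₁ : ℕ), Z ∈ 𝒵 → 0 ≤ C ∧ ∀ (N R : ℕ) (F : ℝ), N₁ ≤ N →
      (N : ℝ) ^ ρ ≤ R → R ≤ N → (N : ℝ) ^ C ≤ |F| → |F| ≤ 2 * Real.exp ((Real.log N) ^ (1 + γ₀ / 2)) →
      ‖∑ n ∈ Ioc 0 R, e (F * (((N : ℝ) + n) ^ θ * ∑ j, (Z j : ℝ) * g j (((N : ℝ) + n) ^ (-s))))‖ ≤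
          R * Real.exp (-(2 * (Real.log N) ^ (1 - 9 * γ₀))) := by
    intro Z
    by_cases hZ : Z ∈ 𝒵
    · obtain ⟨b, A, hA, hb, ⟨m₀, hm₀, hθ, hlow⟩, hgerm⟩ :=
        coeffs_comb θ s hs0 g hg Z (hpoly Z ((hmem Z).1 hZ).1)
      obtain ⟨C, hC0, N₁, hN₁⟩ := hfam ρ hρ0 hρ1 θ s hs0 hs1 b A hA hb m₀ hm₀ hθ hlow
      obtain ⟨t₀, ht₀⟩ := eventually_atTop.1 hgerm
      obtain ⟨N₂, hN₂⟩ := exists_nat_ge t₀
      refine ⟨C, max N₁ N₂, fun _ => ⟨hC0, ?_⟩⟩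
      intro N R F hN hNR hRN hF1 hF2
      have h1 := hN₁ N R F ((le_max_left _ _).trans hN) hNR hRN hF1 hF2
      refine le_trans (le_of_eq ?_) h1
      congr 1
      refine sum_congr rfl fun n _ => ?_
      rw [ht₀ ((N : ℝ) + n) (by
        have h2 : (N₂ : ℝ) ≤ N := by exact_mod_cast (le_max_right _ _).trans hN
        have h3 : (0 : ℝ) ≤ n := Nat.cast_nonneg n
        linarith)]
    · exact ⟨0, 0, fun h => absurd h hZ⟩
  choose C N₁ hCN using hdata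
  obtain ⟨C', hC'0, hC'⟩ : ∃ C' : ℝ, 0 ≤ C' ∧ ∀ Z ∈ 𝒵, C Z ≤ C' := by
    refine ⟨∑ Z ∈ 𝒵, C Z, sum_nonneg fun Z hZ => (hCN Z hZ).1, fun Z hZ => ?_⟩
    exact single_le_sum (f := C) (fun Z hZ => (hCN Z hZ).1) hZ
  obtain ⟨y₀, hy₀⟩ := weyl_abs γ₀ hγ0 hγ1 𝒵.card ε' hε'
  have hlog : Tendsto (fun N : ℕ => Real.log N) atTop atTop :=
    Real.tendsto_log_atTop.comp tendsto_natCast_atTop_atTop
  have hev := hlog.eventually ((eventually_ge_atTop y₀).and (eventually_ge_atTop 10))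
  obtain ⟨N₂, hN₂⟩ := eventually_atTop.1 (hev.and (eventually_ge_atTop (max (𝒵.sup N₁) 2)))
  refine ⟨C', N₂, ?_⟩
  intro N R hN hNR hRN
  obtain ⟨⟨q1, q2⟩, q3⟩ := hN₂ N hN
  obtain ⟨y, hy⟩ : ∃ y : ℝ, y = Real.log N := ⟨_, rfl⟩
  have hN2 : 2 ≤ N := (le_max_right _ _).trans q3
  have hNZ : ∀ Z ∈ 𝒵, N₁ Z ≤ N := fun Z hZ => (le_sup (f := N₁) hZ).trans ((le_max_left _ _).trans q3)
  have hN0 : (0 : ℝ) < N := by exact_mod_cast (by omega : 0 < N)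
  have hN1 : (1 : ℝ) ≤ N := by exact_mod_cast (by omega : 1 ≤ N)
  let ν : (Fin r → ℤ) → ℕ → ℝ := fun Z n => ((N : ℝ) + n) ^ θ * ∑ j, (Z j : ℝ) * g j (((N : ℝ) + n) ^ (-s))
  have key := hy₀ (Real.log N) R (Fin r → ℤ) 𝒵 ν (fun b u => 1 ≤ b ∧ (N : ℝ) ^ C' ≤ (b : ℝ) ^ u) q1 le_rfl
    (by
      rintro b u u' huu' ⟨hb, hbu⟩
      exact ⟨hb, hbu.trans (pow_le_pow_right₀ (by exact_mod_cast hb) huu')⟩)
    (by
      intro Z hZ b u k hb hbu hub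
      intro m hm1 hm2
      have hb0 : (0 : ℝ) < b := by exact_mod_cast (by omega : 0 < b)
      have hb1 : (1 : ℝ) ≤ b := by exact_mod_cast (by omega : 1 ≤ b)
      have h1 := (hCN Z hZ).2 N R (m : ℝ) (hNZ Z hZ) hNR hRN (by
          calc (N : ℝ) ^ C Z ≤ (N : ℝ) ^ C' := Real.rpow_le_rpow_of_exponent_le hN1 (hC' Z hZ)
            _ ≤ (b : ℝ) ^ u := hbu.2
            _ ≤ (b : ℝ) ^ (u + 1) := pow_le_pow_right₀ hb1 (by omega)
            _ ≤ _ := hm1) (by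
          refine hm2.trans ?_
          apply mul_le_mul_of_nonneg_left _ (by norm_num)
          have g1 : (b : ℝ) ^ (u + k) = Real.exp (((u + k : ℕ) : ℝ) * Real.log b) := by
            rw [Real.exp_nat_mul, Real.exp_log hb0]
          rw [g1]
          exact Real.exp_le_exp.2 hub)
      simpa only [one_mul, ν] using h1)
  refine le_trans ?_ key
  have hfin : {n : ℕ | 1 ≤ n ∧ n ≤ R ∧ ∃ b u v : ℕ, 2 ≤ b ∧ Real.log N ^ (1 - γ₀ / 2) ≤ (v : ℝ) - u ∧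
        v * Real.log b ≤ Real.log N ^ (1 + γ₀ / 2) ∧ (1 ≤ b ∧ (N : ℝ) ^ C' ≤ (b : ℝ) ^ u) ∧
        ∃ Z ∈ 𝒵, ε' * ((v : ℝ) - u) <
          ‖∑ i ∈ Icc 1 (v - u), e ((b : ℝ) ^ (u + i) * ν Z n)‖}.Finite :=
    (Set.finite_Iic R).subset fun n hn => hn.2.1
  refine Nat.cast_le.2 (Set.ncard_le_ncard ?_ hfin)
  rintro n ⟨a1, a2, b, u, v, a3, a4, a5, a6, p, q, hpq, a7⟩
  have hb0 : (0 : ℝ) < b := by exact_mod_cast (by omega : 0 < b)
  refine ⟨a1, a2, b, u, v, a3, a4, a5, ⟨by omega, ?_⟩, ?_⟩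
  · rw [Real.rpow_def_of_pos hN0]
    have g1 : (b : ℝ) ^ u = Real.exp ((u : ℝ) * Real.log b) := by
      rw [Real.exp_nat_mul, Real.exp_log hb0]
    rw [g1]
    apply Real.exp_le_exp.2
    linarith
  by_contra hcon
  push Not at hcon
  refine absurd a7 (not_lt.2 ?_)
  have hy0 : 0 < Real.log N := by linarith
  have huv : (u : ℝ) < v := by
    have : 0 < Real.log N ^ (1 - γ₀ / 2) := Real.rpow_pos_of_pos hy0 _
    linarith
  have huv' : u < v := by exact_mod_cast huv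
  obtain ⟨w, hw⟩ : ∃ w : Fin r → ℝ, w = fun j => ((N : ℝ) + n) ^ θ * g j (((N : ℝ) + n) ^ (-s)) := ⟨_, rfl⟩
  have hwj : ∀ j, ((N : ℝ) + n) ^ θ * g j (((N : ℝ) + n) ^ (-s)) = w j := fun j => by rw [hw]
  simp only [hwj]
  have e1 : {i : ℕ | u < i ∧ i ≤ v ∧ ∀ j, p j ≤ Int.fract (w j * (b : ℝ) ^ i) ∧
        Int.fract (w j * (b : ℝ) ^ i) < q j} =
      (fun i => u + i) '' (((Icc 1 (v - u)).filter fun i => ∀ j, p j ≤ Int.fract (w j *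
            (b : ℝ) ^ (u + i)) ∧ Int.fract (w j * (b : ℝ) ^ (u + i)) < q j : Finset ℕ) :
              Set ℕ) := by
    ext i
    simp only [Set.mem_setOf_eq, Set.mem_image, Finset.coe_filter, mem_Icc]
    constructor
    · rintro ⟨c1, c2, c3⟩
      refine ⟨i - u, ⟨⟨by omega, by omega⟩, ?_⟩, by omega⟩
      rw [show u + (i - u) = i by omega]
      exact c3
    · rintro ⟨i', ⟨⟨c1, c2⟩, c3⟩, rfl⟩
      exact ⟨by omega, by omega, c3⟩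
  rw [e1, Set.ncard_image_of_injective _ (fun a b h => by simpa using h), Set.ncard_coe_finset]
  have hcard : (((Icc 1 (v - u)).card : ℕ) : ℝ) = (v : ℝ) - u := by
    rw [Nat.card_Icc, Nat.add_sub_cancel, Nat.cast_sub huv'.le]
  have h := hbox ℕ (Icc 1 (v - u)) (fun i j => w j * (b : ℝ) ^ (u + i)) (by
    intro Z hZ0 hZ
    rw [hcard]
    refine le_trans (le_of_eq ?_) (hcon Z ((hmem Z).2 ⟨hZ0, hZ⟩))
    congr 1
    refine sum_congr rfl fun i _ => ?_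
    congr 1
    simp only [ν]
    rw [mul_sum, mul_sum]
    refine sum_congr rfl fun j _ => ?_
    rw [← hwj j]
    ring) p q hpq
  rw [hcard] at h
  exact h

end Pool.Agent.Helper478.Short
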