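import Pool.Agent.Helper478_Short.AbsBd
import Pool.Agent.Helper478_Short.Ser3

/-!
# Exponential sums over `F n ^ θ g (n ^ (-s))` in short intervals
-/

set_option autoImplicit false

namespace Pool.Agent.Helper478.Short

open Finset Filter Topology
open Pool.Agent.H469R2.NK (e norm_e e_add e_zero conj_e)
open Pool.Agent.Helper478.Surds (ev_pow)

theorem fam_bd : ∃ γ : ℝ, 0 < γ ∧ γ ≤ 1 / 100 ∧ ∀ ρ : ℝ, 0 < ρ → ρ ≤ 1 →
    ∀ (θ s : ℝ), 0 < s → s ≤ 1 → ∀ (b : ℕ → ℝ) (A : ℝ), 1 ≤ A → (∀ m, |b m| ≤ A ^ (m + 1)) →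
      ∀ m₀ : ℕ, b m₀ ≠ 0 → (∀ i : ℕ, θ - s * m₀ ≠ i) → (∀ m < m₀, b m = 0 ∨ ∃ i : ℕ, θ - s * m = i) →
      ∃ C₀ : ℝ, 0 ≤ C₀ ∧ ∃ N₀ : ℕ, ∀ (N R : ℕ) (F : ℝ), N₀ ≤ N → (N : ℝ) ^ ρ ≤ R → R ≤ N →
        (N : ℝ) ^ C₀ ≤ |F| → |F| ≤ 2 * Real.exp ((Real.log N) ^ (1 + γ / 2)) →
        ‖∑ n ∈ Ioc 0 R, e (F * germ θ s b ((N : ℝ) + n))‖ ≤
          R * Real.exp (-(2 * (Real.log N) ^ (1 - 9 * γ))) := by
  obtain ⟨γ, hγ0, hγ1, habs⟩ := abs_bd
  refine ⟨γ, hγ0, hγ1, ?_⟩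
  intro ρ hρ0 hρ1 θ s hs0 hs1 b A hA hb m₀ hm₀ hθ hlow
  obtain ⟨D, hD1, J₀, hT⟩ := germ_taylor θ s hs0 hs1 b A hA hb m₀ hm₀ hθ hlow
  obtain ⟨N₁, hN₁⟩ := habs ρ hρ0 hρ1 D hD1
  obtain ⟨μ, hμ⟩ : ∃ μ : ℝ, μ = θ - s * m₀ := ⟨_, rfl⟩
  rw [← hμ] at hT
  have hD0 : 0 < D := by linarith
  have hLD0 : 0 ≤ Real.log D := Real.log_nonneg hD1
  have hJ0 : (0 : ℝ) ≤ J₀ := Nat.cast_nonneg _
  have h20 : 0 < 20 / ρ := by positivity
  refine ⟨20 / ρ + |μ| + J₀, by positivity, ?_⟩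
  -- eventual inequalities
  have ev1 : ∀ᶠ y : ℝ in atTop, 2 * y ^ (γ / 2) ≤ y ^ γ := ev_pow _ _ _ (by linarith)
  have ev2 : ∀ᶠ y : ℝ in atTop, (|μ| + 1) * y ^ (0 : ℝ) ≤ y ^ (γ / 2) := ev_pow _ _ _ (by linarith)
  have ev3 : ∀ᶠ y : ℝ in atTop, (10 + 4 * Real.log D) * y ^ γ ≤ y ^ (1 : ℝ) := ev_pow _ _ _ (by linarith)
  have hlog : Tendsto (fun N : ℕ => Real.log N) atTop atTop :=
    Real.tendsto_log_atTop.comp tendsto_natCast_atTop_atTop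
  have hev := hlog.eventually ((ev1.and ev2).and (ev3.and (eventually_ge_atTop 10)))
  have hid : Tendsto (fun N : ℕ => (N : ℝ)) atTop atTop := tendsto_natCast_atTop_atTop
  obtain ⟨N₀, hN₀⟩ := eventually_atTop.1 (hev.and ((hid.eventually (eventually_ge_atTop D)).and
    (eventually_ge_atTop (max N₁ 16))))
  refine ⟨N₀, ?_⟩
  intro N R F hN hRN hRN' hF1 hF2
  obtain ⟨⟨⟨q1, q2⟩, q3, q4⟩, q5, q6⟩ := hN₀ N hN
  obtain ⟨y, hy⟩ : ∃ y : ℝ, y = Real.log N := ⟨_, rfl⟩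
  rw [← hy] at q1 q2 q3 q4
  have hNN₁ : N₁ ≤ N := (le_max_left _ _).trans q6
  have hN16 : 16 ≤ N := (le_max_right _ _).trans q6
  have hN16' : (16 : ℝ) ≤ N := by exact_mod_cast hN16
  have hN0 : (0 : ℝ) < N := by linarith
  have hy0 : 0 < y := by linarith
  have hy1 : 1 ≤ y := by linarith
  rw [Real.rpow_zero, mul_one] at q2
  rw [Real.rpow_one] at q3
  have hpow : ∀ t : ℝ, (N : ℝ) ^ t = Real.exp (y * t) := by
    intro t
    rw [Real.rpow_def_of_pos hN0, hy]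
  have hNe : (N : ℝ) = Real.exp y := by rw [hy, Real.exp_log hN0]
  have hF0 : 0 < |F| := lt_of_lt_of_le (Real.rpow_pos_of_pos hN0 _) hF1
  obtain ⟨κ, hκ⟩ : ∃ κ : ℝ, κ = Real.log |F| / y + μ := ⟨_, rfl⟩
  have hNκ : |F| * (N : ℝ) ^ μ = (N : ℝ) ^ κ := by
    rw [hpow κ, hpow μ, hκ, mul_add, mul_div_cancel₀ _ hy0.ne', Real.exp_add, Real.exp_log hF0]
  have hκ1 : 20 / ρ + J₀ ≤ κ := by
    rw [hpow, ← Real.exp_log hF0, Real.exp_le_exp] at hF1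
    have h1 : 20 / ρ + |μ| + J₀ ≤ Real.log |F| / y := by
      rw [le_div_iff₀ hy0]; linarith
    have h2 := neg_abs_le μ
    rw [hκ]; linarith
  have hκ2 : κ ≤ y ^ γ := by
    have hF3 := Real.log_le_log hF0 hF2
    rw [← hy, Real.log_mul (by norm_num) (Real.exp_pos _).ne', Real.log_exp] at hF3
    have h1 : Real.log |F| / y ≤ y ^ (γ / 2) + 1 := by
      rw [div_le_iff₀ hy0]
      have : y ^ (1 + γ / 2) = y ^ (γ / 2) * y := by
        rw [Real.rpow_add hy0, Real.rpow_one]; ring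
      rw [this] at hF3
      have h2 : Real.log 2 ≤ 1 := by have := Real.log_two_lt_d9; linarith
      linarith
    have h2 := le_abs_self μ
    rw [hκ]; linarith
  have hκ20 : 20 ≤ κ := by
    have : 20 ≤ 20 / ρ := by rw [le_div_iff₀ hρ0]; linarith
    linarith
  obtain ⟨j₀, hj₀⟩ : ∃ j₀ : ℕ, j₀ = ⌈κ⌉₊ + 1 := ⟨_, rfl⟩
  obtain ⟨k, hk⟩ : ∃ k : ℕ, k = ⌈2 * κ⌉₊ + 6 := ⟨_, rfl⟩
  have hk1 : 2 * κ + 6 ≤ k := by
    rw [hk]; push_cast
    have := Nat.le_ceil (2 * κ); linarith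
  have hj1 : κ + 1 ≤ j₀ := by
    rw [hj₀]; push_cast
    have := Nat.le_ceil κ; linarith
  have hj2 : (j₀ : ℝ) ≤ κ + 2 := by
    rw [hj₀]; push_cast
    have := Nat.ceil_lt_add_one (a := κ) (by linarith); linarith
  have hJj : J₀ ≤ j₀ := by
    have : (J₀ : ℝ) ≤ j₀ := by linarith
    exact_mod_cast this
  have hJk : J₀ ≤ k := by
    have : (J₀ : ℝ) ≤ k := by linarith
    exact_mod_cast this
  obtain ⟨g, hg⟩ : ∃ g : ℝ, g = y ^ γ := ⟨_, rfl⟩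
  rw [← hg] at hκ2 q3
  have hg1 : 1 ≤ g := by rw [hg]; exact Real.one_le_rpow hy1 hγ0.le
  have hgD : (10 + 4 * Real.log D) * g = 10 * g + 4 * (g * Real.log D) := by ring
  rw [hgD] at q3
  have hgD0 : 0 ≤ g * Real.log D := by positivity
  have hDj : D ^ j₀ ≤ N := by
    have h1 : D ^ j₀ = Real.exp (j₀ * Real.log D) := by rw [Real.exp_nat_mul, Real.exp_log hD0]
    rw [h1, hNe]
    apply Real.exp_le_exp.2
    have h2 : (j₀ : ℝ) * Real.log D ≤ (3 * g) * Real.log D := by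
      apply mul_le_mul_of_nonneg_right _ hLD0; linarith
    linarith
  have hlogD : Real.log D ≤ g * Real.log D := le_mul_of_one_le_left hLD0 hg1
  refine hN₁ N R (fun n => F * germ θ s b ((N : ℝ) + n)) κ hNN₁ hRN hRN' (by linarith)
    (by rw [← hy, ← hg]; exact hκ2) ?_
  intro n hn
  rw [mem_Ioc] at hn
  have hn2 : (n : ℝ) ≤ N := by exact_mod_cast hn.2.trans hRN'
  have hn0 : (0 : ℝ) ≤ n := Nat.cast_nonneg n
  obtain ⟨a, ha⟩ : ∃ a : ℝ, a = (N : ℝ) + n := ⟨_, rfl⟩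
  obtain ⟨β, hβ1, hβ2, hβ3⟩ := hT N a q5 (by rw [ha]; linarith) (by rw [ha]; linarith)
  have ha0 : 0 < a := by rw [ha]; linarith
  refine ⟨F * β 0, fun j => F * β j, ?_, ?_, ?_⟩
  · intro h hh
    have hh0 : (0 : ℝ) ≤ h := Nat.cast_nonneg h
    have h4 : 4 * (h : ℝ) ≤ a := by
      have h5 : (4 * (h : ℝ)) ^ 2 ≤ (N : ℝ) ^ 2 := by nlinarith
      have h6 : 4 * (h : ℝ) ≤ N := (abs_le_of_sq_le_sq' h5 hN0.le).2
      rw [ha]; linarith
    have h5 := hβ1 h hh0 h4 k hJk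
    have e1 : F * germ θ s b ((N : ℝ) + ((n + h : ℕ) : ℝ)) - (F * β 0 + ∑ j ∈ Icc 1 k, F * β j * (h : ℝ) ^ j) =
        F * (germ θ s b (a + h) - ∑ j ∈ range (k + 1), β j * (h : ℝ) ^ j) := by
      rw [Finset.range_eq_Ico, Finset.sum_eq_sum_Ico_succ_bot (by omega), pow_zero, mul_one, mul_sub,
        mul_add, mul_sum, ha]
      push_cast
      rw [add_assoc]
      congr 2
      refine sum_congr rfl fun j _ => ?_
      ring
    rw [← hk, e1, abs_mul]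
    have hq : 2 * (h : ℝ) / a ≤ Real.exp (Real.log 2 - y / 2) := by
      rw [div_le_iff₀ ha0, Real.exp_sub, Real.exp_log (by norm_num)]
      have h6 : (h : ℝ) ≤ Real.exp (y / 2) := by
        have h7 : (h : ℝ) ^ 2 ≤ (Real.exp (y / 2)) ^ 2 := by
          rw [← Real.exp_nat_mul]
          refine hh.trans (le_of_eq ?_)
          rw [hNe]; congr 1; push_cast; ring
        exact (abs_le_of_sq_le_sq' h7 (Real.exp_pos _).le).2
      have h8 : 2 / Real.exp (y / 2) * a = 2 * (a / Real.exp (y / 2)) := by ring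
      rw [h8]
      have h9 : Real.exp (y / 2) ≤ a / Real.exp (y / 2) := by
        rw [le_div_iff₀ (Real.exp_pos _), ← Real.exp_add, add_halves, ← hNe, ha]; linarith
      linarith
    have hq0 : 0 ≤ 2 * (h : ℝ) / a := by positivity
    have h2 : Real.log 2 ≤ 1 := by have := Real.log_two_lt_d9; linarith
    have h2' : 0 ≤ Real.log 2 := Real.log_nonneg (by norm_num)
    have h6 : (2 * (h : ℝ) / a) ^ (k + 1) ≤ Real.exp ((2 * κ + 7) * (Real.log 2 - y / 2)) := by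
      calc (2 * (h : ℝ) / a) ^ (k + 1) ≤ (Real.exp (Real.log 2 - y / 2)) ^ (k + 1) :=
            pow_le_pow_left₀ hq0 hq _
        _ = Real.exp (((k + 1 : ℕ) : ℝ) * (Real.log 2 - y / 2)) := by rw [Real.exp_nat_mul]
        _ ≤ _ := by
            apply Real.exp_le_exp.2
            apply mul_le_mul_of_nonpos_right _ (by linarith)
            push_cast; linarith
    calc |F| * |germ θ s b (a + h) - ∑ j ∈ range (k + 1), β j * (h : ℝ) ^ j| ≤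
          |F| * (D * (2 * h / a) ^ (k + 1) * (N : ℝ) ^ μ) := by gcongr
      _ = D * (2 * h / a) ^ (k + 1) * (|F| * (N : ℝ) ^ μ) := by ring
      _ = D * (2 * h / a) ^ (k + 1) * (N : ℝ) ^ κ := by rw [hNκ]
      _ ≤ Real.exp (Real.log D) * Real.exp ((2 * κ + 7) * (Real.log 2 - y / 2)) * Real.exp (y * κ) := by
          rw [hpow κ, Real.exp_log hD0]
          gcongr
      _ = Real.exp (Real.log D + (2 * κ + 7) * Real.log 2 - 7 / 2 * y) := by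
          rw [← Real.exp_add, ← Real.exp_add]; congr 1; ring
      _ ≤ Real.exp (-y) := by
          apply Real.exp_le_exp.2
          have h7 : (2 * κ + 7) * Real.log 2 ≤ (2 * κ + 7) * 1 :=
            mul_le_mul_of_nonneg_left h2 (by linarith)
          linarith
      _ = 1 / N := by rw [Real.exp_neg, ← hNe, one_div]
  · rw [← hj₀, abs_mul]
    calc |F| * |β j₀| ≤ |F| * (D ^ j₀ * (N : ℝ) ^ (μ - j₀)) := by
          have := hβ2 j₀ hJj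
          gcongr
      _ = D ^ j₀ * ((|F| * (N : ℝ) ^ μ) / (N : ℝ) ^ (j₀ : ℝ)) := by rw [Real.rpow_sub hN0]; ring
      _ = D ^ j₀ * (N : ℝ) ^ (κ - j₀) := by rw [hNκ, Real.rpow_sub hN0]
  · rw [← hj₀, abs_mul]
    calc (N : ℝ) ^ (κ - j₀) = (|F| * (N : ℝ) ^ μ) / (N : ℝ) ^ (j₀ : ℝ) := by
          rw [hNκ, Real.rpow_sub hN0]
      _ = |F| * (N : ℝ) ^ (μ - j₀) := by rw [Real.rpow_sub hN0]; ring
      _ ≤ |F| * (D ^ j₀ * |β j₀|) := by
          have := hβ3 j₀ hJj hDj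
          gcongr
      _ = D ^ j₀ * (|F| * |β j₀|) := by ring

end Pool.Agent.Helper478.Short
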