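import Pool.Agent.Helper478_Surds.Pow
import Mathlib.Analysis.Analytic.Binomial

/-!
# Taylor coefficients of `t ^ θ g (1 / t)` for large `t`
-/

set_option autoImplicit false

namespace Pool.Agent.Helper478.Short

open Finset Filter Topology
open Pool.Agent.Helper478.Surds (cf cf_zero cf_succ)

lemma choose_cf (μ : ℝ) (j : ℕ) : Ring.choose μ j = cf μ j := by
  rw [Ring.choose_eq_smul]
  have h : (descPochhammer ℤ j).smeval μ = ∏ i ∈ range j, (μ - i) := by
    induction j with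
    | zero => simp
    | succ j ih =>
      rw [descPochhammer_succ_right, Polynomial.smeval_mul, ih, prod_range_succ]
      simp [Polynomial.smeval_sub, Polynomial.smeval_X, Polynomial.smeval_natCast]
  rw [h]
  have h2 : ∀ j : ℕ, ((j.factorial : ℝ))⁻¹ * ∏ i ∈ range j, (μ - i) = cf μ j := by
    intro j
    induction j with
    | zero => simp [cf_zero]
    | succ j ih =>
      rw [cf_succ, ← ih, prod_range_succ, Nat.factorial_succ]
      push_cast
      have h1 : (j.factorial : ℝ) ≠ 0 := by exact_mod_cast j.factorial_ne_zero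
      have h2 : (j : ℝ) + 1 ≠ 0 := by positivity
      field_simp
  simpa [smul_eq_mul] using h2 j

lemma hasSum_one_add (μ z : ℝ) (hz0 : 0 ≤ z) (hz : z < 1) :
    HasSum (fun j => cf μ j * z ^ j) ((1 + z) ^ μ) := by
  have h := (Real.one_add_rpow_hasFPowerSeriesOnBall_zero (a := μ)).hasSum (y := z) (by
    rw [← ENNReal.ofReal_one, Metric.eball_ofReal]
    simp [abs_of_nonneg hz0, hz])
  rw [zero_add] at h
  have e1 : (fun j => cf μ j * z ^ j) = (fun n => (binomialSeries ℝ μ n) fun _ => z) := by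
    funext j
    rw [binomialSeries_apply, choose_cf, List.ofFn_const, List.prod_replicate, smul_eq_mul]
  rw [e1]
  exact h

/-- upper bound -/
lemma cf_le_two_pow (Q : ℕ) (ν : ℝ) (j : ℕ) (h : |ν| ≤ Q) : |cf ν j| ≤ 2 ^ (Q + j) := by
  have h1 : |cf ν j| ≤ ((Q + j).choose j : ℝ) := by
    induction j with
    | zero => simp [cf_zero]
    | succ j ih =>
      rw [cf_succ, abs_mul, abs_div, abs_of_pos (by positivity : (0 : ℝ) < (j : ℝ) + 1)]
      have h2 : |ν - j| ≤ Q + j := by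
        have := abs_sub ν j
        rw [abs_of_nonneg (Nat.cast_nonneg j : (0:ℝ) ≤ j)] at this
        linarith
      have h5 : ((Q + (j + 1)).choose (j + 1) : ℝ) * (j + 1) = (Q + (j + 1)) * ((Q + j).choose j) := by
        have := Nat.add_one_mul_choose_eq (Q + j) j
        have h6 : (((Q + j + 1) * (Q + j).choose j : ℕ) : ℝ) =
          (((Q + j + 1).choose (j + 1) * (j + 1) : ℕ) : ℝ) := by rw [this]
        push_cast at h6
        rw [show Q + (j + 1) = Q + j + 1 by ring]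
        linarith
      have h6 : ((Q + (j + 1)).choose (j + 1) : ℝ) = (Q + (j + 1)) * ((Q + j).choose j) / (j + 1) := by
        rw [← h5]; field_simp
      rw [h6]
      calc |cf ν j| * (|ν - j| / (j + 1)) ≤ ((Q + j).choose j : ℝ) * ((Q + j) / (j + 1)) := by gcongr
        _ ≤ ((Q + j).choose j : ℝ) * ((Q + (j + 1)) / (j + 1)) := by gcongr; linarith
        _ = _ := by ring
  refine h1.trans ?_
  exact_mod_cast Nat.choose_le_two_pow _ _

/-- lower bound -/
lemma cf_ge_pow (μ : ℝ) (h : ∀ i : ℕ, μ ≠ i) : ∃ d : ℝ, 0 < d ∧ d ≤ 1 ∧ ∀ j : ℕ, d ^ j ≤ |cf μ j| := by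
  have h1 : Tendsto (fun i : ℕ => |μ - i| / ((i : ℝ) + 1)) atTop (𝓝 1) := by
    have t1 : Tendsto (fun i : ℕ => (μ + 1) / ((i : ℝ) + 1)) atTop (𝓝 0) :=
      tendsto_const_nhds.div_atTop (tendsto_atTop_add_const_right _ _ tendsto_natCast_atTop_atTop)
    have t2 : Tendsto (fun i : ℕ => |(μ + 1) / ((i : ℝ) + 1) - 1|) atTop (𝓝 |0 - 1|) :=
      (t1.sub_const 1).abs
    have t3 : |(0 : ℝ) - 1| = 1 := by norm_num
    rw [t3] at t2
    refine t2.congr fun i => ?_
    have h0 : (0 : ℝ) < (i : ℝ) + 1 := by positivity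
    have e1 : (μ + 1) / ((i : ℝ) + 1) - 1 = (μ - i) / ((i : ℝ) + 1) := by field_simp; ring
    rw [e1, abs_div, abs_of_pos h0]
  have h2 : ∀ᶠ i : ℕ in atTop, (1 / 2 : ℝ) ≤ |μ - i| / ((i : ℝ) + 1) :=
    h1.eventually (le_mem_nhds (by norm_num : (1 / 2 : ℝ) < 1))
  obtain ⟨i₀, hi₀⟩ := eventually_atTop.1 h2
  obtain ⟨d₁, hd₁, hd₁'⟩ : ∃ d : ℝ, 0 < d ∧ ∀ i ∈ range (i₀ + 1), d ≤ |μ - i| / ((i : ℝ) + 1) := by
    obtain ⟨i₁, h3, h4⟩ := Finset.exists_min_image (range (i₀ + 1)) (fun i => |μ - i| / ((i : ℝ) + 1)) ⟨0, by simp⟩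
    refine ⟨|μ - i₁| / ((i₁ : ℝ) + 1), ?_, h4⟩
    have : μ - i₁ ≠ 0 := sub_ne_zero.2 (h i₁)
    positivity
  refine ⟨min d₁ (1 / 2), lt_min hd₁ (by norm_num), (min_le_right _ _).trans (by norm_num), ?_⟩
  have h5 : ∀ i : ℕ, min d₁ (1 / 2) ≤ |μ - i| / ((i : ℝ) + 1) := by
    intro i
    rcases Nat.lt_or_ge i i₀ with hi | hi
    · exact (min_le_left _ _).trans (hd₁' i (by rw [mem_range]; omega))
    · exact (min_le_right _ _).trans (hi₀ i hi)
  intro j
  induction j with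
  | zero => simp [cf_zero]
  | succ j ih =>
    rw [cf_succ, abs_mul, pow_succ, abs_div, abs_of_pos (by positivity : (0 : ℝ) < (j : ℝ) + 1)]
    have := lt_min hd₁ (show (0:ℝ) < 1 / 2 by norm_num)
    exact mul_le_mul ih (h5 j) this.le (abs_nonneg _)

lemma cf_nat_zero (i j : ℕ) (h : i < j) : cf (i : ℝ) j = 0 := by
  rw [cf]
  apply Finset.prod_eq_zero (Finset.mem_range.2 h)
  simp

end Pool.Agent.Helper478.Short
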