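import Pool.Agent.Helper478_Short.Ser

/-!
# Taylor coefficients of `t ^ θ g (t ^ (-s))` for large `t`, II
-/

set_option autoImplicit false

namespace Pool.Agent.Helper478.Short

open Finset Filter Topology
open Pool.Agent.Helper478.Surds (cf cf_zero cf_succ)

/-- the coefficient sums -/
noncomputable def sj (θ s : ℝ) (b : ℕ → ℝ) (a : ℝ) (j : ℕ) : ℝ :=
  ∑' m : ℕ, b m * cf (θ - s * m) j * (a ^ (-s)) ^ m

/-- the function `t ^ θ g (t ^ (-s))` as a series -/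
noncomputable def germ (θ s : ℝ) (b : ℕ → ℝ) (t : ℝ) : ℝ := ∑' m : ℕ, b m * t ^ (θ - s * m)

lemma term_le (θ s : ℝ) (hs0 : 0 ≤ s) (hs1 : s ≤ 1) (T : ℕ) (hT : |θ| ≤ T) (b : ℕ → ℝ) (A : ℝ) (hA : 1 ≤ A)
    (hb : ∀ m, |b m| ≤ A ^ (m + 1)) (a : ℝ) (ha : 0 < a) (m j : ℕ) :
    |b m * cf (θ - s * m) j * (a ^ (-s)) ^ m| ≤ A * 2 ^ (T + j) * (2 * A * a ^ (-s)) ^ m := by
  have hw : 0 < a ^ (-s) := Real.rpow_pos_of_pos ha _
  have hm : (0 : ℝ) ≤ m := Nat.cast_nonneg m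
  have hν : |θ - s * m| ≤ ((T + m : ℕ) : ℝ) := by
    have h1 := abs_sub θ (s * m)
    rw [abs_of_nonneg (by positivity : 0 ≤ s * m)] at h1
    have h2 : s * m ≤ m := by nlinarith
    push_cast; linarith
  rw [abs_mul, abs_mul, abs_of_pos (by positivity : 0 < (a ^ (-s)) ^ m)]
  calc |b m| * |cf (θ - s * m) j| * (a ^ (-s)) ^ m ≤ A ^ (m + 1) * 2 ^ (T + m + j) * (a ^ (-s)) ^ m := by
        have := hb m
        have h2 := cf_le_two_pow (T + m) _ j hν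
        gcongr
    _ = _ := by
        rw [mul_pow, mul_pow, pow_succ, pow_add, pow_add, pow_add]
        ring

lemma geo_summable (q : ℝ) (h0 : 0 ≤ q) (h1 : q ≤ 1 / 2) : Summable (fun m : ℕ => q ^ m) :=
  summable_geometric_of_lt_one h0 (by linarith)

lemma tsum_geo_le (q : ℝ) (h0 : 0 ≤ q) (h1 : q ≤ 1 / 2) : ∑' m : ℕ, q ^ m ≤ 2 := by
  rw [tsum_geometric_of_lt_one h0 (by linarith)]
  rw [inv_le_comm₀ (by linarith) (by norm_num)]
  linarith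

lemma sj_summable (θ s : ℝ) (hs0 : 0 ≤ s) (hs1 : s ≤ 1) (T : ℕ) (hT : |θ| ≤ T) (b : ℕ → ℝ) (A : ℝ)
    (hA : 1 ≤ A) (hb : ∀ m, |b m| ≤ A ^ (m + 1)) (a : ℝ) (ha0 : 0 < a) (hq : 2 * A * a ^ (-s) ≤ 1 / 2)
    (j : ℕ) : Summable (fun m : ℕ => b m * cf (θ - s * m) j * (a ^ (-s)) ^ m) := by
  have hw : 0 < a ^ (-s) := Real.rpow_pos_of_pos ha0 _
  refine Summable.of_norm_bounded (g := fun m => A * 2 ^ (T + j) * (2 * A * a ^ (-s)) ^ m)
    ((geo_summable _ (by positivity) hq).mul_left _) fun m => ?_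
  rw [Real.norm_eq_abs]
  exact term_le θ s hs0 hs1 T hT b A hA hb a ha0 m j

/-- main term of the coefficient sums -/
lemma sj_main (θ s : ℝ) (hs0 : 0 ≤ s) (hs1 : s ≤ 1) (T : ℕ) (hT : |θ| ≤ T) (b : ℕ → ℝ) (A : ℝ)
    (hA : 1 ≤ A) (hb : ∀ m, |b m| ≤ A ^ (m + 1)) (m₀ : ℕ)
    (hlow : ∀ m < m₀, b m = 0 ∨ ∃ i : ℕ, θ - s * m = i)
    (a : ℝ) (ha0 : 0 < a) (hq : 2 * A * a ^ (-s) ≤ 1 / 2) (j : ℕ) (hj : T < j) :
    |sj θ s b a j - b m₀ * cf (θ - s * m₀) j * (a ^ (-s)) ^ m₀| ≤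
      2 * A * 2 ^ (T + j) * (2 * A * a ^ (-s)) ^ (m₀ + 1) := by
  have hw : 0 < a ^ (-s) := Real.rpow_pos_of_pos ha0 _
  have hq0 : 0 ≤ 2 * A * a ^ (-s) := by positivity
  have hs := sj_summable θ s hs0 hs1 T hT b A hA hb a ha0 hq j
  have h1 := hs.sum_add_tsum_nat_add (m₀ + 1)
  have h2 : ∑ m ∈ range (m₀ + 1), b m * cf (θ - s * m) j * (a ^ (-s)) ^ m =
      b m₀ * cf (θ - s * m₀) j * (a ^ (-s)) ^ m₀ := by
    rw [sum_range_succ, sum_eq_zero, zero_add]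
    intro m hm
    rw [mem_range] at hm
    rcases hlow m hm with h | ⟨i, hi⟩
    · rw [h]; ring
    · have hij : i < j := by
        have h3 : (i : ℝ) ≤ T := by
          rw [← hi]
          have := le_abs_self θ
          have h4 : (0 : ℝ) ≤ s * m := by positivity
          linarith
        have : i ≤ T := by exact_mod_cast h3
        omega
      rw [hi, cf_nat_zero i j hij]; ring
  unfold sj
  rw [← h1, h2, add_sub_cancel_left]
  have h3 : ∀ m : ℕ, ‖b (m + (m₀ + 1)) * cf (θ - s * ((m + (m₀ + 1) : ℕ) : ℝ)) j *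
      (a ^ (-s)) ^ (m + (m₀ + 1))‖ ≤
      A * 2 ^ (T + j) * (2 * A * a ^ (-s)) ^ (m₀ + 1) * (2 * A * a ^ (-s)) ^ m := by
    intro m
    rw [Real.norm_eq_abs]
    refine (term_le θ s hs0 hs1 T hT b A hA hb a ha0 (m + (m₀ + 1)) j).trans (le_of_eq ?_)
    rw [pow_add (2 * A * a ^ (-s))]; ring
  have h4 := tsum_of_norm_bounded
    ((geo_summable _ hq0 hq).hasSum.mul_left (A * 2 ^ (T + j) * (2 * A * a ^ (-s)) ^ (m₀ + 1))) h3
  rw [Real.norm_eq_abs] at h4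
  refine h4.trans ?_
  have h5 := tsum_geo_le _ hq0 hq
  have h6 : 0 ≤ A * 2 ^ (T + j) * (2 * A * a ^ (-s)) ^ (m₀ + 1) := by positivity
  calc A * 2 ^ (T + j) * (2 * A * a ^ (-s)) ^ (m₀ + 1) * ∑' m : ℕ, (2 * A * a ^ (-s)) ^ m ≤
        A * 2 ^ (T + j) * (2 * A * a ^ (-s)) ^ (m₀ + 1) * 2 := by gcongr
    _ = _ := by ring

lemma sj_le (θ s : ℝ) (hs0 : 0 ≤ s) (hs1 : s ≤ 1) (T : ℕ) (hT : |θ| ≤ T) (b : ℕ → ℝ) (A : ℝ)
    (hA : 1 ≤ A) (hb : ∀ m, |b m| ≤ A ^ (m + 1)) (m₀ : ℕ)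
    (hlow : ∀ m < m₀, b m = 0 ∨ ∃ i : ℕ, θ - s * m = i)
    (a : ℝ) (ha0 : 0 < a) (hq : 2 * A * a ^ (-s) ≤ 1 / 2) (j : ℕ) (hj : T < j) :
    |sj θ s b a j| ≤ 2 * A * 2 ^ (T + j) * (2 * A * a ^ (-s)) ^ m₀ := by
  have hw : 0 < a ^ (-s) := Real.rpow_pos_of_pos ha0 _
  obtain ⟨q, hqq⟩ : ∃ q : ℝ, q = 2 * A * a ^ (-s) := ⟨_, rfl⟩
  have h1 := sj_main θ s hs0 hs1 T hT b A hA hb m₀ hlow a ha0 hq j hj
  have h2 := term_le θ s hs0 hs1 T hT b A hA hb a ha0 m₀ j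
  rw [← hqq] at hq h1 h2 ⊢
  have hq0 : 0 ≤ q := by rw [hqq]; positivity
  have h3 := abs_sub_abs_le_abs_sub (sj θ s b a j) (b m₀ * cf (θ - s * m₀) j * (a ^ (-s)) ^ m₀)
  have h4 : 2 * A * 2 ^ (T + j) * q ^ (m₀ + 1) ≤ A * 2 ^ (T + j) * q ^ m₀ := by
    rw [pow_succ]
    have h5 : 0 ≤ A * 2 ^ (T + j) * q ^ m₀ := by positivity
    calc 2 * A * 2 ^ (T + j) * (q ^ m₀ * q) = 2 * (A * 2 ^ (T + j) * q ^ m₀) * q := by ring
      _ ≤ 2 * (A * 2 ^ (T + j) * q ^ m₀) * (1 / 2) := by gcongr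
      _ = _ := by ring
  calc |sj θ s b a j| ≤ 2 * A * 2 ^ (T + j) * q ^ (m₀ + 1) + A * 2 ^ (T + j) * q ^ m₀ := by
        linarith
    _ ≤ A * 2 ^ (T + j) * q ^ m₀ + A * 2 ^ (T + j) * q ^ m₀ := by linarith
    _ = _ := by ring

/-- the Taylor series -/
lemma germ_hasSum (θ s : ℝ) (hs0 : 0 ≤ s) (hs1 : s ≤ 1) (T : ℕ) (hT : |θ| ≤ T) (b : ℕ → ℝ) (A : ℝ)
    (hA : 1 ≤ A) (hb : ∀ m, |b m| ≤ A ^ (m + 1)) (a h : ℝ) (ha0 : 0 < a)
    (hq : 2 * A * a ^ (-s) ≤ 1 / 2) (h0 : 0 ≤ h) (hh : 4 * h ≤ a) :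
    HasSum (fun j : ℕ => a ^ θ * sj θ s b a j * (h / a) ^ j) (germ θ s b (a + h)) := by
  have hw : 0 < a ^ (-s) := Real.rpow_pos_of_pos ha0 _
  have hq0 : 0 ≤ 2 * A * a ^ (-s) := by positivity
  obtain ⟨z, hz⟩ : ∃ z : ℝ, z = h / a := ⟨_, rfl⟩
  have hz0 : 0 ≤ z := by rw [hz]; positivity
  have hz1 : z ≤ 1 / 4 := by rw [hz, div_le_div_iff₀ ha0 (by norm_num)]; linarith
  have hz2 : 2 * z ≤ 1 / 2 := by linarith
  let u : ℕ → ℕ → ℝ := fun m j => a ^ θ * (b m * cf (θ - s * m) j * (a ^ (-s)) ^ m) * z ^ j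
  have hu : ∀ m j, |u m j| ≤ a ^ θ * A * 2 ^ T * ((2 * A * a ^ (-s)) ^ m * (2 * z) ^ j) := by
    intro m j
    simp only [u]
    rw [abs_mul, abs_mul, abs_of_pos (Real.rpow_pos_of_pos ha0 _), abs_of_nonneg (pow_nonneg hz0 j)]
    have h1 := term_le θ s hs0 hs1 T hT b A hA hb a ha0 m j
    have h2 : 0 < a ^ θ := Real.rpow_pos_of_pos ha0 _
    calc a ^ θ * |b m * cf (θ - s * m) j * (a ^ (-s)) ^ m| * z ^ j ≤
          a ^ θ * (A * 2 ^ (T + j) * (2 * A * a ^ (-s)) ^ m) * z ^ j := by gcongr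
      _ = _ := by rw [pow_add, mul_pow 2 z]; ring
  have hsum : Summable (Function.uncurry u) := by
    have h1 : Summable (fun p : ℕ × ℕ => (2 * A * a ^ (-s)) ^ p.1 * (2 * z) ^ p.2) :=
      (geo_summable _ hq0 hq).mul_of_nonneg (geo_summable _ (by positivity) hz2)
        (fun m => pow_nonneg hq0 m) (fun j => pow_nonneg (by positivity) j)
    refine Summable.of_norm_bounded (g := fun p : ℕ × ℕ =>
      a ^ θ * A * 2 ^ T * ((2 * A * a ^ (-s)) ^ p.1 * (2 * z) ^ p.2)) (h1.mul_left _) fun p => ?_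
    rw [Real.norm_eq_abs]
    exact hu p.1 p.2
  have hrow : ∀ m, ∑' j, u m j = b m * (a + h) ^ (θ - s * m) := by
    intro m
    have h1 : (a + h) ^ (θ - s * m) = a ^ θ * (a ^ (-s)) ^ m * (1 + z) ^ (θ - s * m) := by
      have e1 : a + h = a * (1 + z) := by rw [hz]; field_simp
      have e2 : (a ^ (-s)) ^ m = (a ^ (s * m))⁻¹ := by
        rw [← Real.rpow_natCast, ← Real.rpow_mul ha0.le, ← Real.rpow_neg ha0.le]
        congr 1; ring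
      rw [e1, Real.mul_rpow ha0.le (by linarith), Real.rpow_sub ha0, e2]
      ring
    have h2 := (hasSum_one_add (θ - s * m) z hz0 (by linarith)).mul_left (a ^ θ * (b m * (a ^ (-s)) ^ m))
    rw [h1]
    have h3 : (fun j => u m j) = fun j => a ^ θ * (b m * (a ^ (-s)) ^ m) * (cf (θ - s * m) j * z ^ j) := by
      funext j
      simp only [u]
      ring
    rw [h3, h2.tsum_eq]
    ring
  have hcol : ∀ j, ∑' m, u m j = a ^ θ * sj θ s b a j * z ^ j := by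
    intro j
    have h3 : (fun m => u m j) = fun m : ℕ => a ^ θ * z ^ j * (b m * cf (θ - s * m) j * (a ^ (-s)) ^ m) := by
      funext m
      simp only [u]
      ring
    rw [h3, tsum_mul_left]
    unfold sj
    ring
  have h1 := hsum.prod_symm
  have h2 := h1.prod
  have h3 := h1.tsum_prod
  have h4 := hsum.tsum_prod
  have e1 : ∑' p : ℕ × ℕ, Function.uncurry u p = germ θ s b (a + h) := by
    rw [h4]
    unfold germ
    refine tsum_congr fun m => ?_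
    exact hrow m
  rw [← hz]
  have e2 : ∑' p : ℕ × ℕ, (Function.uncurry u) p.swap = germ θ s b (a + h) := by
    rw [← e1]
    exact (Equiv.prodComm ℕ ℕ).tsum_eq (Function.uncurry u)
  have h5 : HasSum (fun j => ∑' m, (Function.uncurry u) ((j, m) : ℕ × ℕ).swap)
      (∑' p : ℕ × ℕ, (Function.uncurry u) p.swap) := by
    rw [h3]
    exact h2.hasSum
  rw [e2] at h5
  have e3 : (fun j => ∑' m, (Function.uncurry u) ((j, m) : ℕ × ℕ).swap) =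
      fun j : ℕ => a ^ θ * sj θ s b a j * z ^ j := by
    funext j
    rw [← hcol j]
    rfl
  rw [e3] at h5
  exact h5

end Pool.Agent.Helper478.Short
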